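import Mathlib

set_option autoImplicit false

/-!
# Random colourings by counting

For a finite family of injective maps `o i : Fin r → V` and a pattern `c : Fin r → κ` there is a
colouring `χ : V → κ` with `χ (o i k) = c k` for all `k`, for at least a `|κ| ^ (-r)` proportion of
the `i`.
-/

namespace Pool.Agent.Y436.Color

open Finset

variable {V κ : Type*} [DecidableEq V] [Fintype V] [DecidableEq κ] [Fintype κ]

lemma count_col {r : ℕ} (o : Fin r → V) (ho : Function.Injective o) (c : Fin r → κ) :
    (univ.filter fun χ : V → κ => ∀ k, χ (o k) = c k).card * Fintype.card κ ^ r =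
      Fintype.card κ ^ Fintype.card V := by
  classical
  have h1 : (univ.filter fun χ : V → κ => ∀ k, χ (o k) = c k) =
      Fintype.piFinset fun v => univ.filter fun a : κ => ∀ k, o k = v → a = c k := by
    ext χ
    simp only [mem_filter, mem_univ, true_and, Fintype.mem_piFinset]
    constructor
    · rintro h v k rfl
      exact h k
    · intro h k
      exact h (o k) k rfl
  rw [h1, Fintype.card_piFinset]
  have h2 : ∀ v : V, (univ.filter fun a : κ => ∀ k, o k = v → a = c k).card =
      if v ∈ univ.image o then 1 else Fintype.card κ := by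
    intro v
    split_ifs with h
    · obtain ⟨k, -, rfl⟩ := mem_image.1 h
      rw [card_eq_one]
      refine ⟨c k, ?_⟩
      ext a
      simp only [mem_filter, mem_univ, true_and, mem_singleton]
      constructor
      · exact fun h => h k rfl
      · rintro rfl k' hk'
        rw [ho hk']
    · rw [filter_true_of_mem, card_univ]
      intro a _ k hk
      exact absurd (mem_image.2 ⟨k, mem_univ _, hk⟩) h
  simp_rw [h2]
  rw [prod_ite]
  simp only [prod_const_one, one_mul, prod_const]
  rw [← pow_add]
  congr 1
  have h3 : (univ.image o).card = r := by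
    rw [card_image_of_injective _ ho, card_univ, Fintype.card_fin]
  have h4 : (univ.filter fun v => v ∉ univ.image o).card = Fintype.card V - r := by
    rw [filter_notMem_eq_sdiff, card_sdiff_of_subset (subset_univ _), h3, card_univ]
  have h5 : r ≤ Fintype.card V := by
    rw [← h3, ← card_univ]
    exact card_le_card (subset_univ _)
  rw [h4]
  omega

theorem exists_col {ι : Type*} [Nonempty κ] {r : ℕ} (I : Finset ι) (o : ι → Fin r → V)
    (ho : ∀ i ∈ I, Function.Injective (o i)) (c : Fin r → κ) :
    ∃ χ : V → κ, I.card ≤ Fintype.card κ ^ r * (I.filter fun i => ∀ k, χ (o i k) = c k).card := by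
  classical
  by_contra hcon
  push Not at hcon
  have h1 : ∑ χ : V → κ, Fintype.card κ ^ r * (I.filter fun i => ∀ k, χ (o i k) = c k).card <
      ∑ _χ : V → κ, I.card := by
    refine sum_lt_sum_of_nonempty ?_ fun χ _ => hcon χ
    exact ⟨fun _ => Classical.arbitrary κ, mem_univ _⟩
  have h2 : ∑ χ : V → κ, Fintype.card κ ^ r * (I.filter fun i => ∀ k, χ (o i k) = c k).card =
      ∑ i ∈ I, Fintype.card κ ^ Fintype.card V := by
    simp_rw [card_filter, mul_sum]
    rw [sum_comm]
    refine sum_congr rfl fun i hi => ?_
    rw [← mul_sum, ← card_filter, mul_comm]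
    exact count_col (o i) (ho i hi) c
  rw [h2, sum_const, sum_const, smul_eq_mul, smul_eq_mul, card_univ, Fintype.card_fun] at h1
  rw [mul_comm] at h1
  exact lt_irrefl _ h1

/-- splitting the vertices in two parts -/
theorem exists_split {ι : Type*} (I : Finset ι) (u v : ι → V) (h : ∀ i ∈ I, u i ≠ v i) :
    ∃ χ : V → Bool, I.card ≤ 4 * (I.filter fun i => χ (u i) = true ∧ χ (v i) = false).card := by
  obtain ⟨χ, hχ⟩ := exists_col (κ := Bool) I (fun i => ![u i, v i])
    (by
      intro i hi a b hab
      fin_cases a <;> fin_cases b <;> simp at hab ⊢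
      · exact h i hi hab
      · exact h i hi hab.symm) ![true, false]
  refine ⟨χ, ?_⟩
  have : (I.filter fun i => ∀ k, χ ((fun i => ![u i, v i]) i k) = (![true, false] : Fin 2 → Bool) k) =
      I.filter fun i => χ (u i) = true ∧ χ (v i) = false := by
    ext i
    simp [Fin.forall_fin_two]
  rw [this] at hχ
  simpa using hχ

end Pool.Agent.Y436.Color
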