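import Mathlib
import Pool.Agent.Y436.Color

set_option autoImplicit false

/-!
# Small cores of dense linear tripartite triple systems (Sárközy–Selkow)

A dense linear tripartite system `F ⊆ X × Y × Z` contains `2 ^ (j+1) - 1` triples inside
`A × B × D` with `|A| = |B| = 2 ^ j` and `|D| = j + 1`.
-/

namespace Pool.Agent.Y436.Core

open Finset SimpleGraph TripartiteFromTriangles Sum3

/-- the apex step -/
theorem apex (c : ℝ) (hc : 0 < c) : ∃ c' : ℝ, 0 < c' ∧ ∃ N : ℕ, ∀ n : ℕ, N ≤ n →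
    ∀ F : Finset (Fin n × Fin n × Fin n), ExplicitDisjoint F → c * (n : ℝ) ^ 2 ≤ F.card →
      ∃ z0 : Fin n, ∃ F' ⊆ F, c' * (n : ℝ) ^ 2 ≤ F'.card ∧ (∀ t ∈ F', t.2.2 ≠ z0) ∧
        (∀ t ∈ F', ∃ y, (t.1, y, z0) ∈ F) ∧ (∀ t ∈ F', ∃ x, (x, t.2.1, z0) ∈ F) ∧
        (∀ t ∈ F', ∀ u ∈ F', (t.1, u.2.1, z0) ∉ F) := by
  classical
  have hc9 : 0 < c / 9 := by positivity
  obtain ⟨δ, hδ⟩ : ∃ δ : ℝ, δ = triangleRemovalBound (c / 9) := ⟨_, rfl⟩
  have hδ0 : 0 < δ := by rw [hδ]; exact triangleRemovalBound_pos hc9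
  refine ⟨δ, hδ0, ⌈1 / δ⌉₊ + 1, ?_⟩
  intro n hn F hF hcard
  have hn1 : 1 ≤ n := by omega
  have hnδ : 1 ≤ δ * n := by
    have h1 : 1 / δ ≤ (n : ℝ) := (Nat.le_ceil _).trans (by exact_mod_cast (by omega : ⌈1 / δ⌉₊ ≤ n))
    rw [div_le_iff₀ hδ0] at h1
    linarith
  have hn0 : (0 : ℝ) < n := by exact_mod_cast hn1
  have hfar : (graph F).FarFromTriangleFree (c / 9) := by
    refine farFromTriangleFree F ?_
    rw [Fintype.card_fin]
    push_cast
    calc c / 9 * ((n : ℝ) + n + n) ^ 2 = c * (n : ℝ) ^ 2 := by ring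
      _ ≤ _ := hcard
  have hcl := hfar.le_card_cliqueFinset
  rw [← hδ] at hcl
  -- the triangles
  let Tri : Finset (Fin n × Fin n × Fin n) := univ.filter fun t =>
    (∃ z, (t.1, t.2.1, z) ∈ F) ∧ (∃ y, (t.1, y, t.2.2) ∈ F) ∧ (∃ x, (x, t.2.1, t.2.2) ∈ F)
  have hsub : (graph F).cliqueFinset 3 ⊆ Tri.image toTriangle := by
    intro s hs
    rw [mem_cliqueFinset_iff, is3Clique_iff] at hs
    obtain ⟨x, y, z, hxy, hxz, hyz, rfl⟩ := hs
    obtain ⟨a, b, w, habw, hab, haw, hbw⟩ := graph_triple hxy hxz hyz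
    rw [mem_image]
    refine ⟨(a, b, w), ?_, habw⟩
    simp only [Tri, mem_filter, mem_univ, true_and]
    exact ⟨Graph.in₀₁_iff.1 hab, Graph.in₀₂_iff.1 haw, Graph.in₁₂_iff.1 hbw⟩
  have hTri : δ * (3 * (n : ℝ)) ^ 3 ≤ Tri.card := by
    have h1 : (((graph F).cliqueFinset 3).card : ℝ) ≤ Tri.card := by
      exact_mod_cast (card_le_card hsub).trans card_image_le
    refine le_trans (le_of_eq ?_) (hcl.trans h1)
    congr 1
    simp [Fintype.card_sum]
    ring
  -- the best apex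
  obtain ⟨z0, hz0⟩ : ∃ z0 : Fin n, δ * 27 * (n : ℝ) ^ 2 ≤ (Tri.filter fun t => t.2.2 = z0).card := by
    by_contra hcon
    push Not at hcon
    have h1 : Tri.card = ∑ z : Fin n, (Tri.filter fun t => t.2.2 = z).card :=
      card_eq_sum_card_fiberwise fun _ _ => mem_coe.2 (mem_univ _)
    have h2 : (Tri.card : ℝ) < ∑ _z : Fin n, δ * 27 * (n : ℝ) ^ 2 := by
      rw [h1]
      push_cast
      exact sum_lt_sum_of_nonempty ⟨⟨0, by omega⟩, mem_univ _⟩ fun z _ => hcon z
    rw [sum_const, card_univ, Fintype.card_fin, nsmul_eq_mul] at h2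
    nlinarith
  let F0 : Finset (Fin n × Fin n × Fin n) := F.filter fun t =>
    t.2.2 ≠ z0 ∧ (∃ y, (t.1, y, z0) ∈ F) ∧ (∃ x, (x, t.2.1, z0) ∈ F)
  let Fz : Finset (Fin n × Fin n × Fin n) := F.filter fun t => t.2.2 = z0
  have hFz : Fz.card ≤ n := by
    have h1 : (Fz.image fun t => t.1).card = Fz.card := by
      refine card_image_of_injOn ?_
      rintro ⟨a, b, w⟩ h1 ⟨a', b', w'⟩ h2 h3
      simp only [Fz, coe_filter, Set.mem_ofPred_eq] at h1 h2 h3
      obtain ⟨h1, rfl⟩ := h1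
      obtain ⟨h2, rfl⟩ := h2
      subst h3
      rw [ExplicitDisjoint.inj₁ h1 h2]
    rw [← h1]
    exact (card_le_univ _).trans (by simp)
  have hTz : (Tri.filter fun t => t.2.2 = z0).card ≤ F0.card + Fz.card := by
    have h1 : ((Tri.filter fun t => t.2.2 = z0).image fun t => (t.1, t.2.1)).card =
        (Tri.filter fun t => t.2.2 = z0).card := by
      refine card_image_of_injOn ?_
      rintro ⟨a, b, w⟩ h1 ⟨a', b', w'⟩ h2 h3
      simp only [coe_filter, Set.mem_ofPred_eq] at h1 h2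
      simp only [Prod.mk.injEq] at h3
      obtain ⟨-, rfl⟩ := h1
      obtain ⟨-, rfl⟩ := h2
      rw [h3.1, h3.2]
    have h2 : ((Tri.filter fun t => t.2.2 = z0).image fun t => (t.1, t.2.1)) ⊆
        (F0 ∪ Fz).image fun t => (t.1, t.2.1) := by
      intro p hp
      rw [mem_image] at hp
      obtain ⟨⟨a, b, w⟩, ht, rfl⟩ := hp
      simp only [Tri, mem_filter, mem_univ, true_and] at ht
      obtain ⟨⟨⟨z, hz⟩, hy, hx⟩, rfl⟩ := ht
      rw [mem_image]
      refine ⟨(a, b, z), ?_, rfl⟩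
      rw [mem_union]
      by_cases hzw : z = w
      · right
        simp only [Fz, mem_filter]
        exact ⟨hz, hzw⟩
      · left
        simp only [F0, mem_filter]
        exact ⟨hz, hzw, hy, hx⟩
    rw [← h1]
    exact (card_le_card h2).trans (card_image_le.trans (card_union_le _ _))
  have hF0 : δ * 26 * (n : ℝ) ^ 2 ≤ F0.card := by
    have h1 : ((Tri.filter fun t => t.2.2 = z0).card : ℝ) ≤ F0.card + n := by
      exact_mod_cast hTz.trans (Nat.add_le_add_left hFz _)
    have h2 : (n : ℝ) ≤ δ * (n : ℝ) ^ 2 := by nlinarith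
    linarith
  -- the split
  have hxs : ∀ y : Fin n, ∃ x : Fin n, (∃ x', (x', y, z0) ∈ F) → (x, y, z0) ∈ F := by
    intro y
    by_cases h : ∃ x', (x', y, z0) ∈ F
    · obtain ⟨x, hx⟩ := h
      exact ⟨x, fun _ => hx⟩
    · exact ⟨z0, fun h' => absurd h' h⟩
  choose xs hxs using hxs
  obtain ⟨χ, hχ⟩ := Color.exists_split (V := Fin n) F0 (fun t => t.1) (fun t => xs t.2.1) (by
    rintro ⟨a, b, w⟩ ht heq
    simp only [F0, mem_filter] at ht heq
    obtain ⟨h1, h2, -, h4⟩ := ht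
    have h5 := hxs b h4
    rw [← heq] at h5
    exact h2 (ExplicitDisjoint.inj₂ h1 h5))
  refine ⟨z0, F0.filter fun t => χ t.1 = true ∧ χ (xs t.2.1) = false,
    (filter_subset _ _).trans (filter_subset _ _), ?_, ?_, ?_, ?_, ?_⟩
  · have h1 : (F0.card : ℝ) ≤
        4 * (F0.filter fun t => χ t.1 = true ∧ χ (xs t.2.1) = false).card := by exact_mod_cast hχ
    have h2 : 0 ≤ δ * (n : ℝ) ^ 2 := by positivity
    linarith
  · intro t ht
    simp only [F0, mem_filter] at ht
    exact ht.1.2.1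
  · intro t ht
    simp only [F0, mem_filter] at ht
    exact ht.1.2.2.1
  · intro t ht
    simp only [F0, mem_filter] at ht
    exact ht.1.2.2.2
  · intro t ht u hu hF1
    simp only [F0, mem_filter] at ht hu
    have h1 := hxs u.2.1 hu.1.2.2.2
    have h2 : t.1 = xs u.2.1 := ExplicitDisjoint.inj₀ hF1 h1
    have h3 := ht.2.1
    rw [h2, hu.2.2] at h3
    exact Bool.noConfusion h3

lemma disj_mono {α β γ : Type*} {F F' : Finset (α × β × γ)} (h : F' ⊆ F) (hF : ExplicitDisjoint F) :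
    ExplicitDisjoint F' :=
  ⟨fun _ _ _ _ h1 h2 => hF.inj₀ (h h1) (h h2), fun _ _ _ _ h1 h2 => hF.inj₁ (h h1) (h h2),
    fun _ _ _ _ h1 h2 => hF.inj₂ (h h1) (h h2)⟩

theorem core (j : ℕ) : ∀ c : ℝ, 0 < c → ∃ N : ℕ, ∀ n : ℕ, N ≤ n →
    ∀ F : Finset (Fin n × Fin n × Fin n), ExplicitDisjoint F → c * (n : ℝ) ^ 2 ≤ F.card →
      ∃ S ⊆ F, ∃ A B D : Finset (Fin n), S.card + 1 = 2 ^ (j + 1) ∧ A.card = 2 ^ j ∧
        B.card = 2 ^ j ∧ D.card = j + 1 ∧ A ⊆ F.image (fun t => t.1) ∧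
        B ⊆ F.image (fun t => t.2.1) ∧ D ⊆ F.image (fun t => t.2.2) ∧
        ∀ t ∈ S, t.1 ∈ A ∧ t.2.1 ∈ B ∧ t.2.2 ∈ D := by
  classical
  induction j with
  | zero =>
    intro c hc
    refine ⟨1, fun n hn F _ hcard => ?_⟩
    have hne : F.Nonempty := by
      rw [← card_pos]
      have h1 : (0 : ℝ) < c * (n : ℝ) ^ 2 := by
        have : (0 : ℝ) < n := by exact_mod_cast hn
        positivity
      exact_mod_cast h1.trans_le hcard
    obtain ⟨t, ht⟩ := hne
    refine ⟨{t}, by simpa using ht, {t.1}, {t.2.1}, {t.2.2}, by simp, by simp, by simp, by simp,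
      ?_, ?_, ?_, by simp⟩
    · rw [singleton_subset_iff, mem_image]
      exact ⟨t, ht, rfl⟩
    · rw [singleton_subset_iff, mem_image]
      exact ⟨t, ht, rfl⟩
    · rw [singleton_subset_iff, mem_image]
      exact ⟨t, ht, rfl⟩
  | succ j ih =>
    intro c hc
    obtain ⟨c', hc', N1, hN1⟩ := apex c hc
    obtain ⟨N2, hN2⟩ := ih c' hc'
    refine ⟨max N1 N2, fun n hn F hF hcard => ?_⟩
    obtain ⟨z0, F', hF'F, hF'c, hz, hy, hx, hind⟩ := hN1 n ((le_max_left _ _).trans hn) F hF hcard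
    obtain ⟨S', hS', A, B, D, hS'c, hA, hB, hD, hAF, hBF, hDF, hin⟩ :=
      hN2 n ((le_max_right _ _).trans hn) F' (disj_mono hF'F hF) hF'c
    have hxA : ∀ x ∈ A, ∃ y, (x, y, z0) ∈ F := by
      intro x hxA
      obtain ⟨t, ht, rfl⟩ := mem_image.1 (hAF hxA)
      exact hy t ht
    have hyB : ∀ y ∈ B, ∃ x, (x, y, z0) ∈ F := by
      intro y hyB
      obtain ⟨t, ht, rfl⟩ := mem_image.1 (hBF hyB)
      exact hx t ht
    have hAB : ∀ x ∈ A, ∀ y ∈ B, (x, y, z0) ∉ F := by
      intro x hxA y hyB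
      obtain ⟨t, ht, rfl⟩ := mem_image.1 (hAF hxA)
      obtain ⟨u, hu, rfl⟩ := mem_image.1 (hBF hyB)
      exact hind t ht u hu
    have hys : ∀ x : Fin n, ∃ y : Fin n, x ∈ A → (x, y, z0) ∈ F := by
      intro x
      by_cases h : x ∈ A
      · obtain ⟨y, h'⟩ := hxA x h
        exact ⟨y, fun _ => h'⟩
      · exact ⟨z0, fun h' => absurd h' h⟩
    have hxs : ∀ y : Fin n, ∃ x : Fin n, y ∈ B → (x, y, z0) ∈ F := by
      intro y
      by_cases h : y ∈ B
      · obtain ⟨x, h'⟩ := hyB y h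
        exact ⟨x, fun _ => h'⟩
      · exact ⟨z0, fun h' => absurd h' h⟩
    choose ys hys using hys
    choose xs hxs using hxs
    let E1 : Finset (Fin n × Fin n × Fin n) := A.image fun x => (x, ys x, z0)
    let E2 : Finset (Fin n × Fin n × Fin n) := B.image fun y => (xs y, y, z0)
    have hE1 : E1.card = A.card := by
      refine card_image_of_injOn ?_
      intro x _ x' _ h
      exact (Prod.mk.inj h).1
    have hE2 : E2.card = B.card := by
      refine card_image_of_injOn ?_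
      intro x _ x' _ h
      exact (Prod.mk.inj (Prod.mk.inj h).2).1
    have hE1F : E1 ⊆ F := by
      intro t ht
      obtain ⟨x, hx, rfl⟩ := mem_image.1 ht
      exact hys x hx
    have hE2F : E2 ⊆ F := by
      intro t ht
      obtain ⟨y, hy, rfl⟩ := mem_image.1 ht
      exact hxs y hy
    have hd12 : Disjoint E1 E2 := by
      rw [Finset.disjoint_left]
      intro t h1 h2
      obtain ⟨x, hx, rfl⟩ := mem_image.1 h1
      obtain ⟨y, hy, h⟩ := mem_image.1 h2
      have h3 := Prod.mk.inj h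
      have h4 := Prod.mk.inj h3.2
      have h5 := hys x hx
      rw [← h4.1] at h5
      exact hAB x hx y hy h5
    have hzS : ∀ t ∈ S', t.2.2 ≠ z0 := fun t ht => hz t (hS' ht)
    have hdS : Disjoint S' (E1 ∪ E2) := by
      rw [Finset.disjoint_left]
      intro t h1 h2
      rw [mem_union] at h2
      rcases h2 with h2 | h2
      · obtain ⟨x, hx, rfl⟩ := mem_image.1 h2
        exact hzS _ h1 rfl
      · obtain ⟨x, hx, rfl⟩ := mem_image.1 h2
        exact hzS _ h1 rfl
    have hdA : Disjoint A (B.image xs) := by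
      rw [Finset.disjoint_left]
      intro x h1 h2
      obtain ⟨y, hy, rfl⟩ := mem_image.1 h2
      exact hAB _ h1 y hy (hxs y hy)
    have hdB : Disjoint B (A.image ys) := by
      rw [Finset.disjoint_left]
      intro y h1 h2
      obtain ⟨x, hx, rfl⟩ := mem_image.1 h2
      exact hAB x hx _ h1 (hys x hx)
    have hixs : (B.image xs).card = B.card := by
      refine card_image_of_injOn ?_
      intro y hy y' hy' h
      have h1 := hxs y hy
      have h2 := hxs y' hy'
      rw [h] at h1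
      exact hF.inj₁ h1 h2
    have hiys : (A.image ys).card = A.card := by
      refine card_image_of_injOn ?_
      intro x hx x' hx' h
      have h1 := hys x hx
      have h2 := hys x' hx'
      rw [h] at h1
      exact hF.inj₀ h1 h2
    have hz0D : z0 ∉ D := by
      intro h
      obtain ⟨t, ht, h'⟩ := mem_image.1 (hDF h)
      exact hz t ht h'
    refine ⟨S' ∪ (E1 ∪ E2), union_subset (hS'.trans hF'F) (union_subset hE1F hE2F),
      A ∪ B.image xs, B ∪ A.image ys, insert z0 D, ?_, ?_, ?_, ?_, ?_, ?_, ?_, ?_⟩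
    · rw [card_union_of_disjoint hdS, card_union_of_disjoint hd12, hE1, hE2, hA, hB]
      have : 2 ^ (j + 1 + 1) = 2 ^ (j + 1) + 2 ^ j + 2 ^ j := by ring
      omega
    · rw [card_union_of_disjoint hdA, hixs, hA, hB]
      ring
    · rw [card_union_of_disjoint hdB, hiys, hA, hB]
      ring
    · rw [card_insert_of_notMem hz0D, hD]
    · refine union_subset (hAF.trans (image_subset_image hF'F)) ?_
      intro x hx
      obtain ⟨y, hy, rfl⟩ := mem_image.1 hx
      exact mem_image.2 ⟨_, hxs y hy, rfl⟩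
    · refine union_subset (hBF.trans (image_subset_image hF'F)) ?_
      intro y hy
      obtain ⟨x, hx, rfl⟩ := mem_image.1 hy
      exact mem_image.2 ⟨_, hys x hx, rfl⟩
    · intro z hz'
      rw [mem_insert] at hz'
      rcases hz' with rfl | hz'
      · obtain ⟨x, hx⟩ : A.Nonempty := by
          rw [← card_pos, hA]
          positivity
        exact mem_image.2 ⟨_, hys x hx, rfl⟩
      · exact image_subset_image hF'F (hDF hz')
    · intro t ht
      rw [mem_union, mem_union] at ht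
      rcases ht with ht | ht | ht
      · obtain ⟨h1, h2, h3⟩ := hin t ht
        exact ⟨mem_union_left _ h1, mem_union_left _ h2, mem_insert_of_mem h3⟩
      · obtain ⟨x, hx, rfl⟩ := mem_image.1 ht
        exact ⟨mem_union_left _ hx, mem_union_right _ (mem_image_of_mem _ hx), mem_insert_self _ _⟩
      · obtain ⟨y, hy, rfl⟩ := mem_image.1 ht
        exact ⟨mem_union_right _ (mem_image_of_mem _ hy), mem_union_left _ hy, mem_insert_self _ _⟩

end Pool.Agent.Y436.Core
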