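import Mathlib

set_option autoImplicit false

/-!
# Growing a configuration

`H` is an `(s+2)`-uniform hypergraph on `n` vertices in which no `e` edges lie on at most
`s e + d + 1` vertices. If `S₀` is a set of fewer than `e` edges inside `U₀` and
`|U₀| ≤ s |S₀| + d`, then `s` times the sum of the degrees of the vertices of `U₀` is at most
`n + s (s + 2) e`.
-/

namespace Pool.Agent.Y436.Grow

open Finset

variable {V : Type*} [DecidableEq V]

/-- the degree of `a` in `H` -/
def dg (H : Finset (Finset V)) (a : V) : ℕ := (H.filter (fun f => a ∈ f)).card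

/-- no `e` edges of `H` lie on at most `p` vertices -/
def NoConf (H : Finset (Finset V)) (e p : ℕ) : Prop :=
  ∀ S ⊆ H, S.card = e → p < (S.biUnion id).card

lemma sum_dg (H : Finset (Finset V)) (U : Finset V) :
    ∑ a ∈ U, dg H a = ∑ f ∈ H, (f ∩ U).card := by
  unfold dg
  simp_rw [card_filter]
  rw [sum_comm]
  refine sum_congr rfl fun f _ => ?_
  rw [← card_filter]
  congr 1
  ext a
  simp [and_comm]

/-- Connectivity: a family of sets of size at most `s + 1`, all of whose proper nonempty parts `T'`
span more than `s |T'|` points, contains parts of every size `m` spanning at most `s m + 1` points. -/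
lemma connect {ι : Type*} [DecidableEq ι] (s : ℕ) (L : ι → Finset V) (T : Finset ι)
    (h2 : ∀ i ∈ T, (L i).card ≤ s + 1)
    (hmin : ∀ T' ⊂ T, T'.Nonempty → s * T'.card + 1 ≤ (T'.biUnion L).card)
    (hT : (T.biUnion L).card ≤ s * T.card + 1) (m : ℕ) (hm : 1 ≤ m) (hmT : m ≤ T.card) :
    ∃ T1 ⊆ T, T1.card = m ∧ (T1.biUnion L).card ≤ s * m + 1 := by
  induction m, hm using Nat.le_induction with
  | base =>
    obtain ⟨i, hi⟩ : T.Nonempty := card_pos.1 (by omega)
    exact ⟨{i}, by simpa using hi, by simp, by simpa using h2 i hi⟩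
  | succ m hm ih =>
    obtain ⟨T1, h1, hc, hu⟩ := ih (by omega)
    have hne1 : T1.Nonempty := card_pos.1 (by omega)
    have hss : T1 ⊂ T := by
      refine ssubset_of_subset_of_ne h1 ?_
      rintro rfl
      omega
    have hT2 : (T \ T1).card = T.card - m := by rw [card_sdiff_of_subset h1, hc]
    have hne2 : (T \ T1).Nonempty := card_pos.1 (by omega)
    have hss2 : T \ T1 ⊂ T := by
      refine ssubset_of_subset_of_ne sdiff_subset ?_
      intro h
      have := congrArg Finset.card h
      omega
    by_cases hex : ∃ i ∈ T \ T1, ¬ Disjoint (L i) (T1.biUnion L)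
    · obtain ⟨i, hi, hd⟩ := hex
      rw [mem_sdiff] at hi
      refine ⟨insert i T1, insert_subset hi.1 h1, by rw [card_insert_of_notMem hi.2, hc], ?_⟩
      rw [biUnion_insert]
      have h3 := card_union_add_card_inter (L i) (T1.biUnion L)
      have h4 : 1 ≤ (L i ∩ T1.biUnion L).card := by
        rw [Nat.one_le_iff_ne_zero, Ne, card_eq_zero, ← disjoint_iff_inter_eq_empty]
        exact hd
      have := h2 i hi.1
      rw [mul_add, mul_one]
      omega
    · exfalso
      push Not at hex
      have hdis : Disjoint ((T \ T1).biUnion L) (T1.biUnion L) := by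
        rw [disjoint_biUnion_left]
        exact hex
      have h5 : T.biUnion L = (T \ T1).biUnion L ∪ T1.biUnion L := by
        rw [← union_biUnion, sdiff_union_of_subset h1]
      rw [h5, card_union_of_disjoint hdis] at hT
      have e1 := hmin T1 hss hne1
      have e2 := hmin (T \ T1) hss2 hne2
      have e3 : s * (T \ T1).card + s * T1.card = s * T.card := by
        rw [← mul_add, hT2, hc]
        congr 1
        omega
      omega

variable [Fintype V]

theorem grow (s : ℕ) (H : Finset (Finset V)) (h3 : ∀ f ∈ H, f.card = s + 2) (e d : ℕ)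
    (hno : NoConf H e (s * e + d + 1)) (U0 : Finset V) (S0 : Finset (Finset V)) (hS0 : S0 ⊆ H)
    (hin : ∀ f ∈ S0, f ⊆ U0) (hc : U0.card ≤ s * S0.card + d) (he : S0.card < e) :
    s * ∑ a ∈ U0, dg H a ≤ Fintype.card V + s * ((s + 2) * e) := by
  classical
  -- a maximal extension
  let P : Finset (Finset V × Finset (Finset V)) :=
    (univ : Finset (Finset V × Finset (Finset V))).filter fun q =>
      q.2 ⊆ H ∧ (∀ f ∈ q.2, f ⊆ q.1) ∧ U0 ⊆ q.1 ∧ q.1.card ≤ s * q.2.card + d ∧ q.2.card < e
  have hP : P.Nonempty := ⟨(U0, S0), by simp [P]; exact ⟨hS0, hin, hc, he⟩⟩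
  obtain ⟨⟨U, S⟩, hUS, hmax⟩ := P.exists_max_image (fun q => q.2.card) hP
  simp only [P, mem_filter, mem_univ, true_and] at hUS hmax
  obtain ⟨hSH, hSU, hU0, hcard, hlt⟩ := hUS
  have hmax' : ∀ (U' : Finset V) (S' : Finset (Finset V)), S' ⊆ H → (∀ f ∈ S', f ⊆ U') →
      U0 ⊆ U' → U'.card ≤ s * S'.card + d → S'.card < e → S'.card ≤ S.card :=
    fun U' S' a b c d' e' => hmax (U', S') ⟨a, b, c, d', e'⟩
  -- unions of size-`e` families are large
  have hbig : ∀ (U' : Finset V) (S' : Finset (Finset V)), S' ⊆ H → (∀ f ∈ S', f ⊆ U') →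
      S'.card = e → U'.card ≤ s * e + d + 1 → False := by
    intro U' S' a b c d'
    have h1 := hno S' a c
    have h2 : S'.biUnion id ⊆ U' := by
      rw [biUnion_subset]
      exact b
    have := card_le_card h2
    omega
  -- edges outside `S` meet `U` in at most one vertex
  have hone : ∀ f ∈ H, f ∉ S → (f ∩ U).card ≤ 1 := by
    intro f hf hfS
    by_contra hcon
    push Not at hcon
    have hcu : (U ∪ f).card ≤ U.card + s := by
      have h1 := card_union_add_card_inter U f
      rw [inter_comm] at h1
      have := h3 f hf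
      omega
    have hins : insert f S ⊆ H := insert_subset hf hSH
    have hins2 : ∀ g ∈ insert f S, g ⊆ U ∪ f := by
      intro g hg
      rw [mem_insert] at hg
      rcases hg with rfl | hg
      · exact subset_union_right
      · exact (hSU g hg).trans subset_union_left
    have hci : (insert f S).card = S.card + 1 := card_insert_of_notMem hfS
    have hms : s * (S.card + 1) = s * S.card + s := by ring
    rcases Nat.lt_or_ge (S.card + 1) e with h | h
    · have := hmax' (U ∪ f) (insert f S) hins hins2 (hU0.trans subset_union_left)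
        (by rw [hci, hms]; omega) (by omega)
      omega
    · have he1 : S.card + 1 = e := by omega
      exact hbig (U ∪ f) (insert f S) hins hins2 (by omega) (by rw [← he1, hms]; omega)
  let T : Finset (Finset V) := H.filter fun f => (f ∩ U).card = 1
  let L : Finset V → Finset V := fun f => f \ U
  have hTS : ∀ f ∈ T, f ∉ S := by
    intro f hf hfS
    simp only [T, mem_filter] at hf
    have h1 : f ∩ U = f := inter_eq_left.2 (hSU f hfS)
    rw [h1, h3 f hf.1] at hf
    omega
  have hL2 : ∀ f ∈ T, (L f).card = s + 1 := by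
    intro f hf
    simp only [T, mem_filter] at hf
    have h1 := card_sdiff_add_card_inter f U
    have := h3 f hf.1
    simp only [L]
    omega
  -- the number of edges meeting `U` in one vertex
  have hT : s * T.card ≤ Fintype.card V := by
    by_contra hcon
    push Not at hcon
    let Q : Finset (Finset (Finset V)) :=
      T.powerset.filter fun T' => T'.Nonempty ∧ (T'.biUnion L).card ≤ s * T'.card
    have hQ : Q.Nonempty := by
      refine ⟨T, ?_⟩
      simp only [Q, mem_filter, mem_powerset, subset_refl, true_and]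
      refine ⟨card_pos.1 (Nat.pos_of_ne_zero ?_), ?_⟩
      · intro h0
        rw [h0] at hcon
        omega
      · exact (card_le_univ _).trans hcon.le
    obtain ⟨T', hT', hmin⟩ := Q.exists_min_image (fun q => q.card) hQ
    simp only [Q, mem_filter, mem_powerset] at hT' hmin
    obtain ⟨hT'T, hT'ne, hT'c⟩ := hT'
    have hmin' : ∀ T'' ⊂ T', T''.Nonempty → s * T''.card + 1 ≤ (T''.biUnion L).card := by
      intro T'' hss hne
      by_contra hc2
      have := hmin T'' ⟨hss.1.trans hT'T, hne, by omega⟩
      have := card_lt_card hss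
      omega
    have hdisj : ∀ T1 ⊆ T, Disjoint S T1 := by
      intro T1 h1
      rw [disjoint_right]
      exact fun f hf => hTS f (h1 hf)
    have hT1 : ∀ T1 ⊆ T, S ∪ T1 ⊆ H := fun T1 h1 =>
      union_subset hSH (h1.trans (filter_subset _ _))
    have hT2 : ∀ T1 ⊆ T, ∀ f ∈ S ∪ T1, f ⊆ U ∪ T1.biUnion L := by
      intro T1 h1 f hf
      rw [mem_union] at hf
      rcases hf with hf | hf
      · exact (hSU f hf).trans subset_union_left
      · intro a ha
        by_cases haU : a ∈ U
        · exact mem_union_left _ haU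
        · refine mem_union_right _ (mem_biUnion.2 ⟨f, hf, ?_⟩)
          simp [L, ha, haU]
    have hcT : ∀ T1 ⊆ T, (S ∪ T1).card = S.card + T1.card := fun T1 h1 =>
      card_union_of_disjoint (hdisj T1 h1)
    have hcU : ∀ T1 ⊆ T, (U ∪ T1.biUnion L).card ≤ U.card + (T1.biUnion L).card := fun T1 _ =>
      card_union_le _ _
    have hpos : 0 < T'.card := card_pos.2 hT'ne
    rcases Nat.lt_or_ge (S.card + T'.card) e with h | h
    · have e1 := hcT T' hT'T
      have e2 := hcU T' hT'T
      have := hmax' (U ∪ T'.biUnion L) (S ∪ T') (hT1 T' hT'T) (hT2 T' hT'T)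
        (hU0.trans subset_union_left) (by rw [e1, mul_add]; omega) (by omega)
      omega
    · obtain ⟨T1, hT1T, hT1c, hT1u⟩ := connect s L T' (fun i hi => (hL2 i (hT'T hi)).le) hmin'
        (by omega) (e - S.card) (by omega) (by omega)
      have h1T := hT1T.trans hT'T
      have e1 := hcT T1 h1T
      have e2 := hcU T1 h1T
      have e3 : s * (e - S.card) + s * S.card = s * e := by
        rw [← mul_add]
        congr 1
        omega
      exact hbig _ _ (hT1 T1 h1T) (hT2 T1 h1T) (by omega) (by omega)
  -- conclude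
  have hle : ∑ a ∈ U0, dg H a ≤ ∑ a ∈ U, dg H a :=
    sum_le_sum_of_subset_of_nonneg hU0 (fun _ _ _ => Nat.zero_le _)
  rw [sum_dg H U] at hle
  have hsplit : ∑ f ∈ H, (f ∩ U).card ≤
      ∑ f ∈ H, ((if f ∈ S then s + 2 else 0) + if f ∈ T then 1 else 0) := by
    refine sum_le_sum fun f hf => ?_
    by_cases hfS : f ∈ S
    · rw [if_pos hfS]
      have := h3 f hf
      have := card_le_card (inter_subset_left (s₁ := f) (s₂ := U))
      omega
    · rw [if_neg hfS]
      have := hone f hf hfS
      by_cases h1 : (f ∩ U).card = 1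
      · rw [if_pos (by simp [T, hf, h1])]
        omega
      · omega
  have e3 : ∑ f ∈ H, ((if f ∈ S then s + 2 else 0) + if f ∈ T then 1 else 0) =
      (s + 2) * S.card + T.card := by
    rw [sum_add_distrib, ← sum_filter, ← sum_filter, filter_mem_eq_inter, filter_mem_eq_inter,
      inter_eq_right.2 hSH, inter_eq_right.2 (show T ⊆ H from filter_subset _ _), sum_const,
      sum_const, smul_eq_mul, smul_eq_mul, mul_one, mul_comm]
  have e4 : ∑ a ∈ U0, dg H a ≤ (s + 2) * e + T.card := by
    have : (s + 2) * S.card ≤ (s + 2) * e := Nat.mul_le_mul_left _ hlt.le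
    omega
  calc s * ∑ a ∈ U0, dg H a ≤ s * ((s + 2) * e + T.card) := Nat.mul_le_mul_left _ e4
    _ = s * T.card + s * ((s + 2) * e) := by ring
    _ ≤ _ := by omega

end Pool.Agent.Y436.Grow
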