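import Mathlib
import Pool.Agent.Y436.Color
import Pool.Agent.Y436.Grow

set_option autoImplicit false

/-!
# Degrees, codegrees and linear subfamilies
-/

namespace Pool.Agent.Y436.Avg

open Finset Pool.Agent.Y436.Grow

variable {V : Type*} [DecidableEq V]

lemma codeg_lt {s e d : ℕ} {H : Finset (Finset V)} (h3 : ∀ f ∈ H, f.card = s + 2) (hd : 1 ≤ d)
    (hno : NoConf H e (s * e + d + 1)) {u v : V} (huv : u ≠ v) :
    (H.filter fun f => u ∈ f ∧ v ∈ f).card < e := by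
  by_contra hcon
  push Not at hcon
  obtain ⟨S, hS, hSc⟩ := exists_subset_card_eq hcon
  have h1 := hno S (hS.trans (filter_subset _ _)) hSc
  have h2 : S.biUnion id ⊆ {u, v} ∪ S.biUnion fun f => f \ {u, v} := by
    intro a ha
    rw [mem_biUnion] at ha
    obtain ⟨f, hf, haf⟩ := ha
    by_cases h : a ∈ ({u, v} : Finset V)
    · exact mem_union_left _ h
    · exact mem_union_right _ (mem_biUnion.2 ⟨f, hf, mem_sdiff.2 ⟨haf, h⟩⟩)
  have h4 : ∀ f ∈ S, (f \ {u, v}).card = s := by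
    intro f hf
    have h5 := hS hf
    rw [mem_filter] at h5
    have h6 : ({u, v} : Finset V) ⊆ f := by
      rw [insert_subset_iff, singleton_subset_iff]
      exact h5.2
    rw [card_sdiff_of_subset h6, h3 f h5.1, card_pair huv]
    rfl
  have h5 : (S.biUnion fun f => f \ {u, v}).card ≤ s * e := by
    refine card_biUnion_le.trans ?_
    rw [sum_congr rfl h4, sum_const, hSc, smul_eq_mul, mul_comm]
  have h6 := card_le_card h2
  have h7 := card_union_le ({u, v} : Finset V) (S.biUnion fun f => f \ {u, v})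
  have h8 := card_pair huv
  omega

lemma conflict {s e d : ℕ} {H : Finset (Finset V)} (h3 : ∀ f ∈ H, f.card = s + 2) (hd : 1 ≤ d)
    (hno : NoConf H e (s * e + d + 1)) {f : Finset V} (hf : f ∈ H) :
    (H.filter fun g => 2 ≤ (f ∩ g).card).card ≤ (s + 2) ^ 2 * e := by
  have h1 : (H.filter fun g => 2 ≤ (f ∩ g).card) ⊆
      f.offDiag.biUnion fun p => H.filter fun g => p.1 ∈ g ∧ p.2 ∈ g := by
    intro g hg
    rw [mem_filter] at hg
    obtain ⟨u, hu, v, hv, huv⟩ := one_lt_card.1 (show 1 < (f ∩ g).card by omega)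
    rw [mem_inter] at hu hv
    rw [mem_biUnion]
    exact ⟨(u, v), mem_offDiag.2 ⟨hu.1, hv.1, huv⟩, mem_filter.2 ⟨hg.1, hu.2, hv.2⟩⟩
  refine (card_le_card h1).trans (card_biUnion_le.trans ?_)
  have h2 : ∀ p ∈ f.offDiag, (H.filter fun g => p.1 ∈ g ∧ p.2 ∈ g).card ≤ e := fun p hp =>
    (codeg_lt h3 hd hno (mem_offDiag.1 hp).2.2).le
  refine (sum_le_sum h2).trans ?_
  rw [sum_const, smul_eq_mul]
  refine Nat.mul_le_mul_right _ ?_
  rw [offDiag_card, h3 f hf, sq]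
  exact Nat.sub_le _ _

lemma exists_linear {s e d : ℕ} {H : Finset (Finset V)} (h3 : ∀ f ∈ H, f.card = s + 2) (hd : 1 ≤ d)
    (hno : NoConf H e (s * e + d + 1)) {G : Finset (Finset V)} (hG : G ⊆ H) :
    ∃ G' ⊆ G, (∀ f ∈ G', ∀ g ∈ G', f ≠ g → (f ∩ g).card ≤ 1) ∧
      G.card ≤ (s + 2) ^ 2 * e * G'.card := by
  let Q : Finset (Finset (Finset V)) := G.powerset.filter fun G' =>
    ∀ f ∈ G', ∀ g ∈ G', f ≠ g → (f ∩ g).card ≤ 1
  have hQ : Q.Nonempty := ⟨∅, by simp [Q]⟩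
  obtain ⟨G', hG', hmax⟩ := Q.exists_max_image (fun q => q.card) hQ
  simp only [Q, mem_filter, mem_powerset] at hG' hmax
  refine ⟨G', hG'.1, hG'.2, ?_⟩
  have h1 : G ⊆ G'.biUnion fun f => H.filter fun g => 2 ≤ (f ∩ g).card := by
    intro g hg
    rw [mem_biUnion]
    by_cases hgG : g ∈ G'
    · exact ⟨g, hgG, mem_filter.2 ⟨hG hg, by rw [inter_self, h3 g (hG hg)]; omega⟩⟩
    · by_contra hcon
      push Not at hcon
      have h2 : ∀ f ∈ G', (f ∩ g).card ≤ 1 := by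
        intro f hf
        by_contra h
        exact hcon f hf (mem_filter.2 ⟨hG hg, by omega⟩)
      have h4 := hmax (insert g G') ⟨insert_subset hg hG'.1, by
        intro a ha b hb hab
        rw [mem_insert] at ha hb
        rcases ha with rfl | ha
        · rcases hb with rfl | hb
          · exact absurd rfl hab
          · rw [inter_comm]
            exact h2 b hb
        · rcases hb with rfl | hb
          · exact h2 a ha
          · exact hG'.2 a ha b hb hab⟩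
      rw [card_insert_of_notMem hgG] at h4
      omega
  refine (card_le_card h1).trans (card_biUnion_le.trans ?_)
  refine (sum_le_sum fun f hf => conflict h3 hd hno (hG (hG'.1 hf))).trans ?_
  rw [sum_const, smul_eq_mul, mul_comm]

variable [Fintype V]

lemma dg_le {s e d : ℕ} {H : Finset (Finset V)} (h3 : ∀ f ∈ H, f.card = s + 2) (hd : 1 ≤ d)
    (hno : NoConf H e (s * e + d + 1)) (v : V) : dg H v ≤ e * Fintype.card V := by
  unfold dg
  have h1 : (H.filter fun f => v ∈ f) ⊆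
      (univ.erase v).biUnion fun u => H.filter fun f => v ∈ f ∧ u ∈ f := by
    intro f hf
    rw [mem_filter] at hf
    obtain ⟨u, hu, huv⟩ := exists_mem_ne (show 1 < f.card by rw [h3 f hf.1]; omega) v
    rw [mem_biUnion]
    exact ⟨u, mem_erase.2 ⟨huv, mem_univ _⟩, mem_filter.2 ⟨hf.1, hf.2, hu⟩⟩
  refine (card_le_card h1).trans (card_biUnion_le.trans ?_)
  have h2 : ∀ u ∈ univ.erase v, (H.filter fun f => v ∈ f ∧ u ∈ f).card ≤ e := fun u hu =>
    (codeg_lt h3 hd hno (ne_of_mem_erase hu).symm).le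
  refine (sum_le_sum h2).trans ?_
  rw [sum_const, smul_eq_mul, mul_comm]
  exact Nat.mul_le_mul_left _ (card_le_univ _)

lemma sum_dg_univ {s : ℕ} {H : Finset (Finset V)} (h3 : ∀ f ∈ H, f.card = s + 2) :
    ∑ v, dg H v = (s + 2) * H.card := by
  rw [sum_dg]
  simp only [inter_univ]
  rw [sum_congr rfl h3, sum_const, smul_eq_mul, mul_comm]

lemma sum_sum_dg (H : Finset (Finset V)) :
    ∑ f ∈ H, ∑ v ∈ f, dg H v = ∑ v, dg H v ^ 2 := by
  have h1 : ∀ f ∈ H, ∑ v ∈ f, dg H v = ∑ v, if v ∈ f then dg H v else 0 := by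
    intro f _
    rw [← sum_filter, filter_mem_eq_inter, univ_inter]
  rw [sum_congr rfl h1, sum_comm]
  refine sum_congr rfl fun v _ => ?_
  rw [← sum_filter, sum_const, smul_eq_mul, sq]
  rfl

/-- many edges have large degree sum -/
lemma good_edges {s e d : ℕ} {H : Finset (Finset V)} (h3 : ∀ f ∈ H, f.card = s + 2) (hd : 1 ≤ d)
    (hno : NoConf H e (s * e + d + 1)) (γ ε : ℝ) (hn : 0 < Fintype.card V)
    (hε : ε ≤ ((s : ℝ) + 2) ^ 2 * γ) (hγ : γ * (Fintype.card V : ℝ) ^ 2 ≤ H.card) :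
    ε * (H.card : ℝ) ≤ ((s : ℝ) + 2) * e *
      (H.filter fun f => (((s : ℝ) + 2) ^ 2 * γ - ε) * Fintype.card V ≤
        ((∑ v ∈ f, dg H v : ℕ) : ℝ)).card := by
  classical
  obtain ⟨n, hndef⟩ : ∃ n : ℝ, n = (Fintype.card V : ℝ) := ⟨_, rfl⟩
  have hn0 : 0 < n := by rw [hndef]; exact_mod_cast hn
  rw [← hndef] at hγ ⊢
  obtain ⟨θ, hθ⟩ : ∃ θ : ℝ, θ = (((s : ℝ) + 2) ^ 2 * γ - ε) * n := ⟨_, rfl⟩
  rw [← hθ]
  have h1 : (((s + 2) * H.card : ℕ) : ℝ) ^ 2 ≤ n * ((∑ f ∈ H, ∑ v ∈ f, dg H v : ℕ) : ℝ) := by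
    rw [sum_sum_dg, ← sum_dg_univ h3, hndef]
    exact_mod_cast sq_sum_le_card_mul_sum_sq (s := (univ : Finset V)) (f := fun v => dg H v)
  have h2 : ∀ f ∈ H, ((∑ v ∈ f, dg H v : ℕ) : ℝ) ≤
      θ + (if θ ≤ ((∑ v ∈ f, dg H v : ℕ) : ℝ) then ((s : ℝ) + 2) * e * n - θ else 0) := by
    intro f hf
    split_ifs with h
    · have h4 : ∑ v ∈ f, dg H v ≤ ∑ _v ∈ f, e * Fintype.card V :=
        sum_le_sum fun v _ => dg_le h3 hd hno v
      rw [sum_const, h3 f hf, smul_eq_mul] at h4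
      have h5 : ((∑ v ∈ f, dg H v : ℕ) : ℝ) ≤ (((s + 2) * (e * Fintype.card V) : ℕ) : ℝ) := by
        exact_mod_cast h4
      refine h5.trans (le_of_eq ?_)
      rw [hndef]
      push_cast
      ring
    · push Not at h
      linarith
  have h3' : ((∑ f ∈ H, ∑ v ∈ f, dg H v : ℕ) : ℝ) ≤ θ * H.card +
      (((s : ℝ) + 2) * e * n - θ) *
        (H.filter fun f => θ ≤ ((∑ v ∈ f, dg H v : ℕ) : ℝ)).card := by
    rw [Nat.cast_sum]
    refine (sum_le_sum h2).trans (le_of_eq ?_)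
    rw [sum_add_distrib, sum_const, ← sum_filter, sum_const, nsmul_eq_mul, nsmul_eq_mul]
    ring
  obtain ⟨G, hG⟩ : ∃ G : ℝ, G = ((H.filter fun f => θ ≤ ((∑ v ∈ f, dg H v : ℕ) : ℝ)).card : ℝ) :=
    ⟨_, rfl⟩
  obtain ⟨h, hh⟩ : ∃ h : ℝ, h = (H.card : ℝ) := ⟨_, rfl⟩
  rw [← hG, ← hh] at h3'
  rw [← hG, ← hh]
  rw [← hh] at hγ
  push_cast at h1
  rw [← hh] at h1
  have hG0 : 0 ≤ G := by rw [hG]; positivity
  have hh0 : 0 ≤ h := by rw [hh]; positivity
  have hGh : G ≤ h := by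
    rw [hG, hh]
    exact_mod_cast card_filter_le _ _
  -- the degree sum
  have h6 : ((s : ℝ) + 2) ^ 2 * h ^ 2 ≤ n * (θ * h + (((s : ℝ) + 2) * e * n - θ) * G) := by
    have h7 : n * ((∑ f ∈ H, ∑ v ∈ f, dg H v : ℕ) : ℝ) ≤
        n * (θ * h + (((s : ℝ) + 2) * e * n - θ) * G) := mul_le_mul_of_nonneg_left h3' hn0.le
    push_cast at h7
    nlinarith
  have h8 : ((s : ℝ) + 2) ^ 2 * h * (γ * n ^ 2) ≤ ((s : ℝ) + 2) ^ 2 * h ^ 2 := by
    have : 0 ≤ ((s : ℝ) + 2) ^ 2 * h := by positivity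
    nlinarith
  have hθ0 : 0 ≤ θ := by
    rw [hθ]
    exact mul_nonneg (by linarith) hn0.le
  have h9 : n * (θ * h + (((s : ℝ) + 2) * e * n - θ) * G) ≤
      n * (θ * h + ((s : ℝ) + 2) * e * n * G) := by
    refine mul_le_mul_of_nonneg_left ?_ hn0.le
    nlinarith [mul_nonneg hθ0 hG0]
  have h10 : ((s : ℝ) + 2) ^ 2 * h * (γ * n ^ 2) ≤ n * (θ * h + ((s : ℝ) + 2) * e * n * G) :=
    h8.trans (h6.trans h9)
  rw [hθ] at h10
  have h11 : n ^ 2 * (ε * h) ≤ n ^ 2 * (((s : ℝ) + 2) * e * G) := by nlinarith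
  exact le_of_mul_le_mul_left h11 (by positivity)

omit [DecidableEq V] [Fintype V] in
/-- enumerating an edge by increasing degree -/
lemma exists_enum {r : ℕ} (w : V → ℕ) (f : Finset V) (hf : f.card = r) :
    ∃ o : Fin r → V, Function.Injective o ∧ (∀ v, v ∈ f ↔ ∃ i, o i = v) ∧ Monotone (w ∘ o) := by
  let e := f.equivFinOfCardEq hf
  let o' : Fin r → V := fun i => (e.symm i : V)
  refine ⟨o' ∘ Tuple.sort (w ∘ o'), ?_, ?_, Tuple.monotone_sort (w ∘ o')⟩
  · refine Function.Injective.comp ?_ (Equiv.injective _)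
    exact Subtype.val_injective.comp e.symm.injective
  · intro v
    constructor
    · intro hv
      refine ⟨(Tuple.sort (w ∘ o')).symm (e ⟨v, hv⟩), ?_⟩
      simp [o']
    · rintro ⟨i, rfl⟩
      exact (e.symm _).2

omit [DecidableEq V] [Fintype V] in
lemma pigeon {ι κ : Type*} [DecidableEq κ] [Fintype κ] [Nonempty κ] (I : Finset ι) (g : ι → κ) :
    ∃ k, I.card ≤ Fintype.card κ * (I.filter fun i => g i = k).card := by
  by_contra hcon
  push Not at hcon
  have h1 : ∑ k : κ, Fintype.card κ * (I.filter fun i => g i = k).card < ∑ _k : κ, I.card :=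
    sum_lt_sum_of_nonempty univ_nonempty fun k _ => hcon k
  rw [← mul_sum, ← card_eq_sum_card_fiberwise (fun _ _ => mem_coe.2 (mem_univ _)), sum_const,
    card_univ, smul_eq_mul] at h1
  exact lt_irrefl _ h1

end Pool.Agent.Y436.Avg
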