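import Mathlib
import Pool.Agent.Y436.Avg

set_option autoImplicit false

/-!
# Selecting a dense linear partite subsystem with controlled degrees
-/

namespace Pool.Agent.Y436.Select

open Finset Pool.Agent.Y436.Grow Pool.Agent.Y436.Avg

theorem select (q e d : ℕ) (hd : 1 ≤ d) (he : 1 ≤ e) (γ ε η : ℝ) (hγ : 0 < γ) (hε : 0 < ε)
    (hεγ : ε ≤ ((q : ℝ) + 3) ^ 2 * γ) (hη : 0 < η) :
    ∃ c0 : ℝ, 0 < c0 ∧ ∀ n : ℕ, 1 ≤ n → ∀ H : Finset (Finset (Fin n)), (∀ f ∈ H, f.card = q + 3) →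
      γ * (n : ℝ) ^ 2 ≤ H.card → NoConf H e ((q + 1) * e + d + 1) →
      ∃ (G : Finset (Finset (Fin n))) (o : Finset (Fin n) → Fin (q + 3) → Fin n)
        (w : Fin (q + 3) → ℝ), G ⊆ H ∧ c0 * (n : ℝ) ^ 2 ≤ G.card ∧
        (∀ f ∈ G, Function.Injective (o f)) ∧ (∀ f ∈ G, ∀ v, v ∈ f ↔ ∃ i, o f i = v) ∧
        (∀ f ∈ G, ∀ g ∈ G, ∀ i k, o f i = o g k → i = k) ∧
        (∀ f ∈ G, ∀ g ∈ G, f ≠ g → (f ∩ g).card ≤ 1) ∧ Monotone w ∧
        (∀ f ∈ G, ∀ i, w i ≤ (dg H (o f i) : ℝ)) ∧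
        (((q : ℝ) + 3) ^ 2 * γ - ε - ((q : ℝ) + 3) * η) * n ≤ ∑ i, w i := by
  classical
  obtain ⟨K, hK⟩ : ∃ K : ℕ, K = ⌊(e : ℝ) / η⌋₊ := ⟨_, rfl⟩
  have he0 : (0 : ℝ) < e := by exact_mod_cast he
  refine ⟨ε * γ / (((q : ℝ) + 3) * e) / (((K : ℝ) + 1) ^ (q + 3)) / (((q : ℝ) + 3) ^ (q + 3)) /
    (((q : ℝ) + 3) ^ 2 * e), by positivity, ?_⟩
  intro n hn H h3 hcard hno
  have hn0 : (0 : ℝ) < n := by exact_mod_cast hn
  have h3' : ∀ f ∈ H, f.card = (q + 1) + 2 := h3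
  -- good edges
  obtain ⟨Good, hGood⟩ : ∃ Good : Finset (Finset (Fin n)), Good = H.filter fun f =>
    ((((q + 1 : ℕ) : ℝ) + 2) ^ 2 * γ - ε) * Fintype.card (Fin n) ≤
      ((∑ v ∈ f, dg H v : ℕ) : ℝ) := ⟨_, rfl⟩
  have hq3 : ((q + 1 : ℕ) : ℝ) + 2 = (q : ℝ) + 3 := by push_cast; ring
  have hgood := good_edges h3' hd hno γ ε (by rw [Fintype.card_fin]; omega)
    (by rw [hq3]; exact hεγ) (by rw [Fintype.card_fin]; exact hcard)
  rw [← hGood, hq3] at hgood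
  rw [hq3, Fintype.card_fin] at hGood
  -- enumerations
  have henum : ∀ f : Finset (Fin n), ∃ o : Fin (q + 3) → Fin n, f ∈ H →
      Function.Injective o ∧ (∀ v, v ∈ f ↔ ∃ i, o i = v) ∧ Monotone (dg H ∘ o) := by
    intro f
    by_cases hf : f ∈ H
    · obtain ⟨o, ho⟩ := exists_enum (dg H) f (h3 f hf)
      exact ⟨o, fun _ => ho⟩
    · exact ⟨fun _ => ⟨0, by omega⟩, fun h => absurd h hf⟩
  choose o ho using henum
  -- classes
  let t : Fin n → Fin (K + 1) := fun v =>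
    ⟨min ⌊(dg H v : ℝ) / (η * n)⌋₊ K, by omega⟩
  have hηn : 0 < η * n := by positivity
  have ht : ∀ v, ((t v : ℕ) : ℝ) * (η * n) ≤ dg H v ∧ (dg H v : ℝ) ≤ ((t v : ℕ) : ℝ) * (η * n) + η * n := by
    intro v
    have h1 : ⌊(dg H v : ℝ) / (η * n)⌋₊ ≤ K := by
      rw [hK]
      refine Nat.floor_le_floor ?_
      rw [div_le_div_iff₀ hηn hη]
      have h2 : (dg H v : ℝ) ≤ e * n := by
        have := dg_le h3' hd hno v
        rw [Fintype.card_fin] at this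
        exact_mod_cast this
      nlinarith
    have h2 : (t v : ℕ) = ⌊(dg H v : ℝ) / (η * n)⌋₊ := min_eq_left h1
    rw [h2]
    constructor
    · rw [← le_div_iff₀ hηn]
      exact Nat.floor_le (by positivity)
    · have h4 := (Nat.lt_floor_add_one ((dg H v : ℝ) / (η * n))).le
      rw [div_le_iff₀ hηn] at h4
      linarith
  have htmono : ∀ u v, dg H u ≤ dg H v → t u ≤ t v := by
    intro u v huv
    rw [Fin.le_def]
    refine min_le_min_right _ (Nat.floor_le_floor ?_)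
    gcongr
  obtain ⟨τ, hτ⟩ := pigeon Good (fun f => (fun i => t (o f i) : Fin (q + 3) → Fin (K + 1)))
  obtain ⟨G1, hG1⟩ : ∃ G1 : Finset (Finset (Fin n)),
    G1 = Good.filter fun f => (fun i => t (o f i)) = τ := ⟨_, rfl⟩
  rw [← hG1, Fintype.card_fun, Fintype.card_fin, Fintype.card_fin] at hτ
  have hGoodH : Good ⊆ H := by rw [hGood]; exact filter_subset _ _
  have hG1G : G1 ⊆ Good := by rw [hG1]; exact filter_subset _ _
  -- colouring
  obtain ⟨χ, hχ⟩ := Color.exists_col (κ := Fin (q + 3)) G1 o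
    (fun f hf => (ho f (hGoodH (hG1G hf))).1) id
  obtain ⟨G2, hG2⟩ : ∃ G2 : Finset (Finset (Fin n)),
    G2 = G1.filter fun f => ∀ k, χ (o f k) = id k := ⟨_, rfl⟩
  rw [← hG2, Fintype.card_fin] at hχ
  have hG2G : G2 ⊆ G1 := by rw [hG2]; exact filter_subset _ _
  have hG2H : G2 ⊆ H := hG2G.trans (hG1G.trans hGoodH)
  obtain ⟨G, hGG, hlin, hGc⟩ := exists_linear h3' hd hno hG2H
  have hGH : G ⊆ H := hGG.trans hG2H
  -- sizes
  have hsize : ε * γ / (((q : ℝ) + 3) * e) / (((K : ℝ) + 1) ^ (q + 3)) /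
      (((q : ℝ) + 3) ^ (q + 3)) / (((q : ℝ) + 3) ^ 2 * e) * (n : ℝ) ^ 2 ≤ G.card := by
    have e1 : (Good.card : ℝ) ≤ ((K : ℝ) + 1) ^ (q + 3) * G1.card := by exact_mod_cast hτ
    have e2 : (G1.card : ℝ) ≤ ((q : ℝ) + 3) ^ (q + 3) * G2.card := by exact_mod_cast hχ
    have e3 : (G2.card : ℝ) ≤ ((q : ℝ) + 3) ^ 2 * e * G.card := by exact_mod_cast hGc
    have e4 : ε * (γ * (n : ℝ) ^ 2) ≤ ((q : ℝ) + 3) * e * Good.card :=
      (mul_le_mul_of_nonneg_left hcard hε.le).trans hgood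
    rw [div_mul_eq_mul_div, div_le_iff₀ (by positivity), div_mul_eq_mul_div,
      div_le_iff₀ (by positivity), div_mul_eq_mul_div, div_le_iff₀ (by positivity),
      div_mul_eq_mul_div, div_le_iff₀ (by positivity)]
    calc ε * γ * (n : ℝ) ^ 2 = ε * (γ * (n : ℝ) ^ 2) := by ring
      _ ≤ ((q : ℝ) + 3) * e * Good.card := e4
      _ ≤ ((q : ℝ) + 3) * e * (((K : ℝ) + 1) ^ (q + 3) * G1.card) := by gcongr
      _ ≤ ((q : ℝ) + 3) * e * (((K : ℝ) + 1) ^ (q + 3) * (((q : ℝ) + 3) ^ (q + 3) * G2.card)) := by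
        gcongr
      _ ≤ ((q : ℝ) + 3) * e * (((K : ℝ) + 1) ^ (q + 3) * (((q : ℝ) + 3) ^ (q + 3) *
          (((q : ℝ) + 3) ^ 2 * e * G.card))) := by gcongr
      _ = _ := by ring
  have hne : G.Nonempty := by
    rw [← card_pos]
    have h1 : (0 : ℝ) < G.card := by
      refine lt_of_lt_of_le ?_ hsize
      positivity
    exact_mod_cast h1
  obtain ⟨f0, hf0⟩ := hne
  have hτf : ∀ f ∈ G, ∀ i, t (o f i) = τ i := by
    intro f hf i
    have h1 := hG2G (hGG hf)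
    rw [hG1, mem_filter] at h1
    exact congrFun h1.2 i
  have hχf : ∀ f ∈ G, ∀ i, χ (o f i) = i := by
    intro f hf i
    have h1 := hGG hf
    rw [hG2, mem_filter] at h1
    exact h1.2 i
  refine ⟨G, o, fun i => ((τ i : ℕ) : ℝ) * (η * n), hGH, hsize, fun f hf => (ho f (hGH hf)).1,
    fun f hf => (ho f (hGH hf)).2.1, ?_, hlin, ?_, ?_, ?_⟩
  · intro f hf g hg i k hik
    rw [← hχf f hf i, ← hχf g hg k, hik]
  · intro i k hik
    have h1 : τ i ≤ τ k := by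
      rw [← hτf f0 hf0 i, ← hτf f0 hf0 k]
      exact htmono _ _ ((ho f0 (hGH hf0)).2.2 hik)
    have h2 : ((τ i : ℕ) : ℝ) ≤ ((τ k : ℕ) : ℝ) := by exact_mod_cast (Fin.le_def.1 h1)
    exact mul_le_mul_of_nonneg_right h2 hηn.le
  · intro f hf i
    show ((τ i : ℕ) : ℝ) * (η * n) ≤ _
    rw [← hτf f hf i]
    exact (ht _).1
  · -- the sum of the weights
    have h1 := hG1G (hG2G (hGG hf0))
    rw [hGood, mem_filter] at h1
    have h2 : ((∑ v ∈ f0, dg H v : ℕ) : ℝ) = ∑ i, (dg H (o f0 i) : ℝ) := by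
      have h4 : f0 = univ.image (o f0) := by
        ext v
        rw [(ho f0 (hGH hf0)).2.1 v]
        simp
      push_cast
      conv_lhs => rw [h4]
      rw [sum_image]
      intro a _ b _ hab
      exact (ho f0 (hGH hf0)).1 hab
    have h5 : ∑ i, (dg H (o f0 i) : ℝ) ≤ ∑ i : Fin (q + 3), (((τ i : ℕ) : ℝ) * (η * n) + η * n) := by
      refine sum_le_sum fun i _ => ?_
      rw [← hτf f0 hf0 i]
      exact (ht _).2
    rw [sum_add_distrib, sum_const, card_univ, Fintype.card_fin, nsmul_eq_mul] at h5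
    have h6 := h1.2
    rw [h2] at h6
    push_cast at h5
    nlinarith

end Pool.Agent.Y436.Select
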