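import Mathlib

set_option autoImplicit false

/-!
# The counting inequality inside a plane

`P` is a finite set of points, `G` a family of flats (subsets of `P` with three, four or five points),
two flats share at most one point, and `∑ (|F| - 2) = |P| - 3`. If there are at least two flats and
every point lies in a flat, then `2 ∑ D(x)² ≤ ∑ |F| (|F| - 1) (|P| - 1 + (|F| - 1))`, where `D(x)` is the
number of points joined to `x` by a flat.
-/

namespace Pool.Agent.Y436.Plane

open Finset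

variable {V : Type*} [DecidableEq V]

/-- `|F| - 1` as an integer -/
def tt (F : Finset V) : ℤ := (F.card : ℤ) - 1

/-- weighted number of flats of `G` through `x`: the number of points joined to `x` -/
def dg (G : Finset (Finset V)) (x : V) : ℤ := ∑ F ∈ G, if x ∈ F then tt F else 0

lemma numeric (a2 a3 a4 b2 b3 b4 : ℤ) (ha2 : 0 ≤ a2) (ha3 : 0 ≤ a3) (ha4 : 0 ≤ a4) (hb2 : 0 ≤ b2)
    (hb3 : 0 ≤ b3) (hb4 : 0 ≤ b4) (s D Om : ℤ)
    (hs : s = (a2 + 2 * a3 + 3 * a4 + b2 + 2 * b3 + 3 * b4) + 3)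
    (hD : D = 2 * a2 + 3 * a3 + 4 * a4) (hOm : Om = 2 * b2 + 3 * b3 + 4 * b4)
    (h1 : s + 2 ≤ 2 * D) (h2 : D ≤ s - 1) :
    2 * (D ^ 2 + Om ^ 2 + (8 * (a2 + b2) + 27 * (a3 + b3) + 64 * (a4 + b4)) +
      4 * ((6 * b2 + 12 * b3 + 20 * b4) - 2 * (s - 1 - D)) + 2 * (a3 + 2 * a4) * Om) ≤
    6 * (s + 1) * (a2 + b2) + 12 * (s + 2) * (a3 + b3) + 20 * (s + 3) * (a4 + b4) := by
  obtain ⟨L, hL⟩ : ∃ L : ℤ, L = a2 + 2 * a3 + 3 * a4 + b2 + 2 * b3 + 3 * b4 := ⟨_, rfl⟩
  obtain ⟨p, hp⟩ : ∃ p : ℤ, p = L + 2 - D := ⟨_, rfl⟩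
  obtain ⟨q, hq⟩ : ∃ q : ℤ, q = 2 * D - L - 5 := ⟨_, rfl⟩
  obtain ⟨M, hM⟩ : ∃ M : ℤ, M = 2 * b2 + 4 * b3 + 6 * b4 + a3 + 2 * a4 := ⟨_, rfl⟩
  have hp0 : 0 ≤ p := by rw [hp]; linarith
  have hq0 : 0 ≤ q := by rw [hq]; linarith
  -- the first bracket
  have key1 : 0 ≤ q ^ 2 + 2 * p ^ 2 + 4 * p * q - 6 * q - 8 * p + 9 := by
    rcases eq_or_lt_of_le hp0 with h | h
    · rw [← h]; nlinarith [sq_nonneg (q - 3)]
    · rcases eq_or_lt_of_le (show 1 ≤ p from h) with h' | h'
      · rw [← h']; nlinarith [sq_nonneg (q - 1)]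
      · have hp2 : 2 ≤ p := h'
        nlinarith [mul_nonneg (sub_nonneg.2 hp2) hq0, sq_nonneg (p - 2), sq_nonneg (q + 1), sq_nonneg q]
  have key2 : 0 ≤ 2 * M * (b3 + 2 * b4) - (b3 + 2 * b4) ^ 2 - 5 * b3 + b4 * (L - 24) := by
    have hM' : 4 * b3 + 6 * b4 ≤ M := by rw [hM]; linarith
    have e1 : 0 ≤ (M - (4 * b3 + 6 * b4)) * (b3 + 2 * b4) :=
      mul_nonneg (by linarith) (by linarith)
    have e2 : 5 * b3 ≤ 7 * b3 ^ 2 := by
      rcases eq_or_lt_of_le hb3 with h | h
      · rw [← h]; norm_num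
      · have : 1 ≤ b3 := h
        nlinarith
    have e3 : 0 ≤ b3 * b4 := mul_nonneg hb3 hb4
    have e4 : 0 ≤ 20 * b4 ^ 2 + b4 * (L - 24) := by
      rcases eq_or_lt_of_le hb4 with h | h
      · rw [← h]; norm_num
      · have h4 : 1 ≤ b4 := h
        have hL4 : 4 ≤ L := by
          by_contra hcon
          push Not at hcon
          have : a2 = 0 ∧ a3 = 0 ∧ a4 = 0 := by
            refine ⟨?_, ?_, ?_⟩ <;> omega
          obtain ⟨z1, z2, z3⟩ := this
          rw [z1, z2, z3] at hD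
          omega
        nlinarith [mul_nonneg (show 0 ≤ b4 by linarith) (show 0 ≤ L - 4 by linarith),
          mul_nonneg (show 0 ≤ b4 by linarith) (show 0 ≤ b4 - 1 by linarith)]
    nlinarith
  have key3 : 0 ≤ (a3 + 2 * a4) ^ 2 + 7 * a3 + a4 * (L + 8) := by
    have : 0 ≤ L := by rw [hL]; positivity
    positivity
  have ident : 6 * (s + 1) * (a2 + b2) + 12 * (s + 2) * (a3 + b3) + 20 * (s + 3) * (a4 + b4) -
      2 * (D ^ 2 + Om ^ 2 + (8 * (a2 + b2) + 27 * (a3 + b3) + 64 * (a4 + b4)) +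
      4 * ((6 * b2 + 12 * b3 + 20 * b4) - 2 * (s - 1 - D)) + 2 * (a3 + 2 * a4) * Om) =
      2 * ((q ^ 2 + 2 * p ^ 2 + 4 * p * q - 6 * q - 8 * p + 9) +
        (2 * M * (b3 + 2 * b4) - (b3 + 2 * b4) ^ 2 - 5 * b3 + b4 * (L - 24)) +
        ((a3 + 2 * a4) ^ 2 + 7 * a3 + a4 * (L + 8))) := by
    rw [hp, hq, hM, hs, hD, hOm, hL]; ring
  linarith

omit [DecidableEq V] in
/-- sums of functions of the size of a flat -/
lemma sum_by_card (S : Finset (Finset V)) (h3 : ∀ F ∈ S, 3 ≤ F.card) (h5 : ∀ F ∈ S, F.card ≤ 5)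
    (g : ℕ → ℤ) :
    ∑ F ∈ S, g F.card = g 3 * ((S.filter fun F => F.card = 3).card : ℤ) +
      g 4 * ((S.filter fun F => F.card = 4).card : ℤ) +
      g 5 * ((S.filter fun F => F.card = 5).card : ℤ) := by
  have hS : ∀ F ∈ S, g F.card = (if F.card = 3 then g 3 else 0) + (if F.card = 4 then g 4 else 0) +
      (if F.card = 5 then g 5 else 0) := by
    intro F hF
    have h1 := h3 F hF
    have h2 := h5 F hF
    have : F.card = 3 ∨ F.card = 4 ∨ F.card = 5 := by omega
    rcases this with h | h | h <;> rw [h] <;> simp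
  rw [sum_congr rfl hS, sum_add_distrib, sum_add_distrib, ← sum_filter, ← sum_filter, ← sum_filter,
    sum_const, sum_const, sum_const]
  simp only [nsmul_eq_mul]
  ring

/-- the sum of the squares of the degrees as a sum over pairs of flats -/
lemma sum_dg_sq (P : Finset V) (G : Finset (Finset V)) (hsub : ∀ F ∈ G, F ⊆ P) :
    ∑ x ∈ P, (dg G x) ^ 2 = ∑ F ∈ G, ∑ F' ∈ G, tt F * tt F' * ((F ∩ F').card : ℤ) := by
  unfold dg
  have h1 : ∀ x ∈ P, (∑ F ∈ G, if x ∈ F then tt F else 0) ^ 2 =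
      ∑ F ∈ G, ∑ F' ∈ G, if x ∈ F ∩ F' then tt F * tt F' else 0 := by
    intro x _
    rw [sq, sum_mul_sum]
    refine sum_congr rfl fun F _ => sum_congr rfl fun F' _ => ?_
    by_cases h1 : x ∈ F <;> by_cases h2 : x ∈ F' <;> simp [h1, h2]
  rw [sum_congr rfl h1, sum_comm]
  refine sum_congr rfl fun F hF => ?_
  rw [sum_comm]
  refine sum_congr rfl fun F' _ => ?_
  rw [← sum_filter, sum_const, nsmul_eq_mul, mul_comm]
  congr 2
  have : P.filter (fun x => x ∈ F ∩ F') = F ∩ F' := by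
    ext x
    simp only [mem_filter, mem_inter]
    exact ⟨fun h => h.2, fun h => ⟨hsub F hF h.1, h⟩⟩
  rw [this]

lemma sum_dg (P : Finset V) (G : Finset (Finset V)) (hsub : ∀ F ∈ G, F ⊆ P) :
    ∑ x ∈ P, dg G x = ∑ F ∈ G, tt F * ((F.card : ℤ)) := by
  unfold dg
  rw [sum_comm]
  refine sum_congr rfl fun F hF => ?_
  rw [← sum_filter, sum_const, nsmul_eq_mul, mul_comm]
  congr 2
  have : P.filter (fun x => x ∈ F) = F := by
    ext x
    simp only [mem_filter]
    exact ⟨fun h => h.2, fun h => ⟨hsub F hF h, h⟩⟩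
  rw [this]

/-- sums over ordered pairs with diagonal separated, when different members meet in `≤ c` points -/
lemma pair_bound (A : Finset (Finset V)) (h1 : ∀ F ∈ A, 1 ≤ F.card)
    (hmeet : ∀ F ∈ A, ∀ F' ∈ A, F ≠ F' → (F ∩ F').card ≤ 1) :
    ∑ F ∈ A, ∑ F' ∈ A, tt F * tt F' * ((F ∩ F').card : ℤ) ≤
      (∑ F ∈ A, tt F) ^ 2 + ∑ F ∈ A, tt F ^ 3 := by
  have hle : ∀ F ∈ A, ∑ F' ∈ A, tt F * tt F' * ((F ∩ F').card : ℤ) ≤
      tt F * (∑ F' ∈ A, tt F') + tt F ^ 3 := by
    intro F hF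
    have ht : 0 ≤ tt F := by
      have := h1 F hF
      unfold tt
      have : (1 : ℤ) ≤ F.card := by exact_mod_cast this
      linarith
    rw [← add_sum_erase A _ hF, ← add_sum_erase A tt hF, inter_self]
    have h2 : ∑ F' ∈ A.erase F, tt F * tt F' * ((F ∩ F').card : ℤ) ≤
        ∑ F' ∈ A.erase F, tt F * tt F' := by
      refine sum_le_sum fun F' hF' => ?_
      rw [mem_erase] at hF'
      have h3 := hmeet F hF F' hF'.2 (Ne.symm hF'.1)
      have h3' : ((F ∩ F').card : ℤ) ≤ 1 := by exact_mod_cast h3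
      have ht' : 0 ≤ tt F' := by
        have := h1 F' hF'.2
        unfold tt
        have : (1 : ℤ) ≤ F'.card := by exact_mod_cast this
        linarith
      have := mul_nonneg ht ht'
      nlinarith
    rw [← mul_sum] at h2
    have h4 : tt F * tt F * (F.card : ℤ) = tt F * tt F + tt F ^ 3 := by
      unfold tt; ring
    nlinarith
  refine (sum_le_sum hle).trans ?_
  rw [sum_add_distrib, ← sum_mul, sq]

/-- **The plane inequality.** -/
theorem plane_ineq (P : Finset V) (G : Finset (Finset V)) (hsub : ∀ F ∈ G, F ⊆ P)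
    (h3 : ∀ F ∈ G, 3 ≤ F.card) (h5 : ∀ F ∈ G, F.card ≤ 5)
    (hmeet : ∀ F ∈ G, ∀ F' ∈ G, F ≠ F' → (F ∩ F').card ≤ 1)
    (hsum : ∑ F ∈ G, ((F.card : ℤ) - 2) + 3 = P.card)
    (hcov : ∀ x ∈ P, ∃ F ∈ G, x ∈ F) :
    2 * ∑ x ∈ P, (dg G x) ^ 2 ≤
      ∑ F ∈ G, (F.card : ℤ) * tt F * ((P.card : ℤ) - 1 + tt F) := by
  have htt : ∀ F ∈ G, 2 ≤ tt F := by
    intro F hF
    have := h3 F hF
    unfold tt
    have : (3 : ℤ) ≤ F.card := by exact_mod_cast this
    linarith
  rcases P.eq_empty_or_nonempty with hP | hP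
  · rw [hP]
    simp only [sum_empty, mul_zero, card_empty]
    refine sum_nonneg fun F hF => ?_
    have h := htt F hF
    have h' : (3 : ℤ) ≤ F.card := by exact_mod_cast h3 F hF
    exact mul_nonneg (mul_nonneg (by linarith) (by linarith)) (by push_cast; linarith)
  obtain ⟨a, haP, hmax⟩ := exists_max_image P (dg G) hP
  have hdg2 : ∀ x ∈ P, 2 ≤ dg G x := by
    intro x hx
    obtain ⟨F, hF, hxF⟩ := hcov x hx
    unfold dg
    have h1 : (if x ∈ F then tt F else 0) ≤ ∑ F ∈ G, if x ∈ F then tt F else 0 := by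
      refine single_le_sum (f := fun F => if x ∈ F then tt F else 0) (fun F' hF' => ?_) hF
      split_ifs
      · exact le_trans (by norm_num) (htt F' hF')
      · exact le_rfl
    rw [if_pos hxF] at h1
    exact (htt F hF).trans h1
  by_cases hcase : 2 * dg G a ≤ (P.card : ℤ) + 1
  · -- the degrees are small
    have h1 : ∑ x ∈ P, (dg G x) ^ 2 ≤ dg G a * ∑ x ∈ P, dg G x := by
      rw [mul_sum]
      refine sum_le_sum fun x hx => ?_
      rw [sq]
      exact mul_le_mul_of_nonneg_right (hmax x hx) (le_trans (by norm_num) (hdg2 x hx))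
    rw [sum_dg P G hsub] at h1
    have h2 : 0 ≤ ∑ F ∈ G, tt F * (F.card : ℤ) :=
      sum_nonneg fun F hF => mul_nonneg (le_trans (by norm_num) (htt F hF)) (Nat.cast_nonneg _)
    have h3' : 2 * ∑ x ∈ P, (dg G x) ^ 2 ≤ ((P.card : ℤ) + 1) * ∑ F ∈ G, tt F * (F.card : ℤ) := by
      nlinarith
    refine h3'.trans ?_
    rw [mul_sum]
    refine sum_le_sum fun F hF => ?_
    have h := htt F hF
    have h' : (0 : ℤ) ≤ (F.card : ℤ) := Nat.cast_nonneg _
    have h'' : 0 ≤ tt F * (F.card : ℤ) := mul_nonneg (by linarith) h'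
    nlinarith
  · push Not at hcase
    set A := G.filter (fun F => a ∈ F) with hA
    set B := G.filter (fun F => a ∉ F) with hB
    have hAG : A ⊆ G := filter_subset _ _
    have hBG : B ⊆ G := filter_subset _ _
    set Δ : ℤ := ∑ F ∈ A, tt F with hΔ
    set Ω : ℤ := ∑ F ∈ B, tt F with hΩ
    have hdga : dg G a = Δ := by
      unfold dg
      rw [hΔ, hA, sum_filter]
    have hsplit : ∀ f : Finset V → ℤ, ∑ F ∈ G, f F = ∑ F ∈ A, f F + ∑ F ∈ B, f F := by
      intro f
      rw [hA, hB, sum_filter_add_sum_filter_not]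
    -- h and the indicator
    set h : V → ℤ := fun x => dg B x with hh
    set ι : V → ℤ := fun x => ∑ F ∈ A, if x ∈ F then (1 : ℤ) else 0 with hι
    have hha : h a = 0 := by
      rw [hh]
      unfold dg
      refine sum_eq_zero fun F hF => ?_
      rw [hB, mem_filter] at hF
      rw [if_neg hF.2]
    have hι01 : ∀ x, x ≠ a → ι x = 0 ∨ ι x = 1 := by
      intro x hxa
      by_cases hx : ∃ F ∈ A, x ∈ F
      · right
        obtain ⟨F, hF, hxF⟩ := hx
        rw [hι]
        dsimp only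
        rw [sum_eq_single_of_mem F hF, if_pos hxF]
        intro F' hF' hne
        rw [if_neg]
        intro hxF'
        have h1 := hmeet F (hAG hF) F' (hAG hF') (Ne.symm hne)
        have h2 : ({x, a} : Finset V) ⊆ F ∩ F' := by
          intro z hz
          rw [mem_insert, mem_singleton] at hz
          rw [hA, mem_filter] at hF hF'
          rcases hz with rfl | rfl
          · exact mem_inter.2 ⟨hxF, hxF'⟩
          · exact mem_inter.2 ⟨hF.2, hF'.2⟩
        have h3 := card_le_card h2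
        rw [card_pair hxa] at h3
        omega
      · left
        push Not at hx
        rw [hι]
        dsimp only
        exact sum_eq_zero fun F hF => if_neg (hx F hF)
    have hι0 : ∀ x, x ≠ a → ι x = 0 → ∀ F ∈ A, x ∉ F := by
      intro x hxa h0 F hF hxF
      have h1 : (if x ∈ F then (1 : ℤ) else 0) ≤ ι x := by
        rw [hι]
        refine single_le_sum (f := fun F => if x ∈ F then (1 : ℤ) else 0) (fun F' _ => ?_) hF
        split_ifs <;> norm_num
      rw [if_pos hxF, h0] at h1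
      norm_num at h1
    -- number of points joined to a
    have hιsum : ∑ x ∈ P.erase a, ι x = Δ := by
      rw [hι]
      dsimp only
      rw [sum_comm, hΔ]
      refine sum_congr rfl fun F hF => ?_
      rw [← sum_filter, sum_const, nsmul_eq_mul, mul_one]
      have h1 : (P.erase a).filter (fun x => x ∈ F) = F.erase a := by
        ext x
        simp only [mem_filter, mem_erase]
        exact ⟨fun h => ⟨h.1.1, h.2⟩, fun h => ⟨⟨h.1, hsub F (hAG hF) h.2⟩, h.2⟩⟩
      rw [h1]
      have haF : a ∈ F := by rw [hA, mem_filter] at hF; exact hF.2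
      rw [card_erase_of_mem haF]
      unfold tt
      have : 1 ≤ F.card := card_pos.2 ⟨a, haF⟩
      push_cast [this]
      ring
    have hPa : ((P.erase a).card : ℤ) = (P.card : ℤ) - 1 := by
      rw [card_erase_of_mem haP]
      have : 1 ≤ P.card := card_pos.2 ⟨a, haP⟩
      push_cast [this]
      ring
    have hΔle : Δ ≤ (P.card : ℤ) - 1 := by
      rw [← hιsum, ← hPa]
      have : ∑ x ∈ P.erase a, ι x ≤ ∑ x ∈ P.erase a, (1 : ℤ) := by
        refine sum_le_sum fun x hx => ?_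
        rcases hι01 x (mem_erase.1 hx).1 with h' | h' <;> rw [h'] <;> norm_num
      simpa using this
    -- cross sum
    have hcross : ∑ x ∈ P, ι x * h x ≤
        (∑ F ∈ B, tt F * (F.card : ℤ)) - 2 * ((P.card : ℤ) - 1 - Δ) := by
      have h1 : ∑ x ∈ P, ι x * h x = ∑ x ∈ P.erase a, ι x * h x := by
        rw [← add_sum_erase P _ haP, hha, mul_zero, zero_add]
      have h2 : ∑ x ∈ P, h x = ∑ x ∈ P.erase a, h x := by
        rw [← add_sum_erase P _ haP, hha, zero_add]
      have h3 : ∑ x ∈ P, h x = ∑ F ∈ B, tt F * (F.card : ℤ) := sum_dg P B fun F hF => hsub F (hBG hF)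
      rw [h1, ← h3, h2, ← hPa, ← hιsum]
      have h4 : ∑ x ∈ P.erase a, ι x * h x ≤ ∑ x ∈ P.erase a, (h x - 2 * (1 - ι x)) := by
        refine sum_le_sum fun x hx => ?_
        have hxa := (mem_erase.1 hx).1
        have hxP := (mem_erase.1 hx).2
        rcases hι01 x hxa with h' | h'
        · rw [h']
          have h5 : dg G x = h x := by
            rw [hh]
            unfold dg
            rw [hsplit]
            have : ∑ F ∈ A, (if x ∈ F then tt F else 0) = 0 :=
              sum_eq_zero fun F hF => if_neg (hι0 x hxa h' F hF)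
            rw [this, zero_add]
          have h6 := hdg2 x hxP
          rw [h5] at h6
          linarith
        · rw [h']
          linarith
      refine h4.trans (le_of_eq ?_)
      rw [sum_sub_distrib, ← mul_sum, sum_sub_distrib]
      simp
    -- expansion of the sum of squares
    have hexp := sum_dg_sq P G hsub
    have hAA := pair_bound A (fun F hF => le_trans (by norm_num) (h3 F (hAG hF)))
      (fun F hF F' hF' hne => hmeet F (hAG hF) F' (hAG hF') hne)
    have hBB := pair_bound B (fun F hF => le_trans (by norm_num) (h3 F (hBG hF)))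
      (fun F hF F' hF' hne => hmeet F (hBG hF) F' (hBG hF') hne)
    have hAB : ∑ F ∈ A, ∑ F' ∈ B, tt F * tt F' * ((F ∩ F').card : ℤ) ≤
        2 * ((∑ F ∈ B, tt F * (F.card : ℤ)) - 2 * ((P.card : ℤ) - 1 - Δ)) +
          (∑ F ∈ A, (tt F - 2)) * Ω := by
      have h1 : ∀ F ∈ A, ∑ F' ∈ B, tt F * tt F' * ((F ∩ F').card : ℤ) ≤
          2 * ∑ F' ∈ B, tt F' * ((F ∩ F').card : ℤ) + (tt F - 2) * Ω := by
        intro F hF
        have h2 : ∑ F' ∈ B, tt F * tt F' * ((F ∩ F').card : ℤ) =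
            tt F * ∑ F' ∈ B, tt F' * ((F ∩ F').card : ℤ) := by
          rw [mul_sum]
          refine sum_congr rfl fun F' _ => by ring
        have h3 : ∑ F' ∈ B, tt F' * ((F ∩ F').card : ℤ) ≤ Ω := by
          rw [hΩ]
          refine sum_le_sum fun F' hF' => ?_
          have hne : F ≠ F' := by
            rintro rfl
            rw [hA, mem_filter] at hF
            rw [hB, mem_filter] at hF'
            exact hF'.2 hF.2
          have h4 := hmeet F (hAG hF) F' (hBG hF') hne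
          have h4' : ((F ∩ F').card : ℤ) ≤ 1 := by exact_mod_cast h4
          have := htt F' (hBG hF')
          nlinarith
        have h4 := htt F (hAG hF)
        rw [h2]
        nlinarith
      refine (sum_le_sum h1).trans ?_
      rw [sum_add_distrib, ← mul_sum, ← sum_mul]
      have h5 : ∑ F ∈ A, ∑ F' ∈ B, tt F' * ((F ∩ F').card : ℤ) = ∑ x ∈ P, ι x * h x := by
        rw [hι, hh]
        dsimp only
        unfold dg
        have : ∀ x ∈ P, (∑ F ∈ A, if x ∈ F then (1 : ℤ) else 0) * (∑ F ∈ B, if x ∈ F then tt F else 0) =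
            ∑ F ∈ A, ∑ F' ∈ B, if x ∈ F ∩ F' then tt F' else 0 := by
          intro x _
          rw [sum_mul_sum]
          refine sum_congr rfl fun F _ => sum_congr rfl fun F' _ => ?_
          by_cases h1 : x ∈ F <;> by_cases h2 : x ∈ F' <;> simp [h1, h2]
        rw [sum_congr rfl this, sum_comm (s := P) (t := A)]
        refine sum_congr rfl fun F hF => ?_
        rw [sum_comm (s := P) (t := B)]
        refine sum_congr rfl fun F' _ => ?_
        rw [← sum_filter, sum_const, nsmul_eq_mul, mul_comm]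
        congr 2
        have : P.filter (fun x => x ∈ F ∩ F') = F ∩ F' := by
          ext x
          simp only [mem_filter, mem_inter]
          exact ⟨fun h => h.2, fun h => ⟨hsub F (hAG hF) h.1, h⟩⟩
        rw [this]
      rw [h5]
      linarith
    have htot : ∑ x ∈ P, (dg G x) ^ 2 ≤ Δ ^ 2 + Ω ^ 2 + (∑ F ∈ A, tt F ^ 3 + ∑ F ∈ B, tt F ^ 3) +
        2 * (2 * ((∑ F ∈ B, tt F * (F.card : ℤ)) - 2 * ((P.card : ℤ) - 1 - Δ)) +
          (∑ F ∈ A, (tt F - 2)) * Ω) := by
      rw [hexp, hsplit]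
      have e1 : ∑ F ∈ A, ∑ F' ∈ G, tt F * tt F' * ((F ∩ F').card : ℤ) =
          ∑ F ∈ A, ∑ F' ∈ A, tt F * tt F' * ((F ∩ F').card : ℤ) +
          ∑ F ∈ A, ∑ F' ∈ B, tt F * tt F' * ((F ∩ F').card : ℤ) := by
        rw [← sum_add_distrib]
        exact sum_congr rfl fun F _ => hsplit _
      have e2 : ∑ F ∈ B, ∑ F' ∈ G, tt F * tt F' * ((F ∩ F').card : ℤ) =
          ∑ F ∈ B, ∑ F' ∈ A, tt F * tt F' * ((F ∩ F').card : ℤ) +
          ∑ F ∈ B, ∑ F' ∈ B, tt F * tt F' * ((F ∩ F').card : ℤ) := by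
        rw [← sum_add_distrib]
        exact sum_congr rfl fun F _ => hsplit _
      have e3 : ∑ F ∈ B, ∑ F' ∈ A, tt F * tt F' * ((F ∩ F').card : ℤ) =
          ∑ F ∈ A, ∑ F' ∈ B, tt F * tt F' * ((F ∩ F').card : ℤ) := by
        rw [sum_comm]
        refine sum_congr rfl fun F _ => sum_congr rfl fun F' _ => ?_
        rw [inter_comm]
        ring
      rw [e1, e2, e3]
      linarith
    -- pass to numbers
    have hc (S : Finset (Finset V)) (hS : S ⊆ G) (g : ℕ → ℤ) := sum_by_card S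
      (fun F hF => h3 F (hS hF)) (fun F hF => h5 F (hS hF)) g
    set a2 : ℤ := ((A.filter fun F => F.card = 3).card : ℤ) with ha2
    set a3 : ℤ := ((A.filter fun F => F.card = 4).card : ℤ) with ha3
    set a4 : ℤ := ((A.filter fun F => F.card = 5).card : ℤ) with ha4
    set b2 : ℤ := ((B.filter fun F => F.card = 3).card : ℤ) with hb2
    set b3 : ℤ := ((B.filter fun F => F.card = 4).card : ℤ) with hb3
    set b4 : ℤ := ((B.filter fun F => F.card = 5).card : ℤ) with hb4
    have p1 : Δ = 2 * a2 + 3 * a3 + 4 * a4 := by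
      have := hc A hAG (fun k => (k : ℤ) - 1)
      rw [hΔ]
      unfold tt
      rw [this]
      push_cast
      ring
    have p2 : Ω = 2 * b2 + 3 * b3 + 4 * b4 := by
      have := hc B hBG (fun k => (k : ℤ) - 1)
      rw [hΩ]
      unfold tt
      rw [this]
      push_cast
      ring
    have p3 : ∑ F ∈ A, tt F ^ 3 = 8 * a2 + 27 * a3 + 64 * a4 := by
      have := hc A hAG (fun k => ((k : ℤ) - 1) ^ 3)
      unfold tt
      rw [this]
      push_cast
      ring
    have p4 : ∑ F ∈ B, tt F ^ 3 = 8 * b2 + 27 * b3 + 64 * b4 := by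
      have := hc B hBG (fun k => ((k : ℤ) - 1) ^ 3)
      unfold tt
      rw [this]
      push_cast
      ring
    have p5 : ∑ F ∈ B, tt F * (F.card : ℤ) = 6 * b2 + 12 * b3 + 20 * b4 := by
      have := hc B hBG (fun k => ((k : ℤ) - 1) * k)
      unfold tt
      rw [this]
      push_cast
      ring
    have p6 : ∑ F ∈ A, (tt F - 2) = a3 + 2 * a4 := by
      have := hc A hAG (fun k => ((k : ℤ) - 1) - 2)
      unfold tt
      rw [this]
      push_cast
      ring
    have p7 : (P.card : ℤ) = (a2 + 2 * a3 + 3 * a4 + b2 + 2 * b3 + 3 * b4) + 3 := by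
      rw [← hsum, hsplit]
      have e1 := hc A hAG (fun k => (k : ℤ) - 2)
      have e2 := hc B hBG (fun k => (k : ℤ) - 2)
      rw [e1, e2]
      push_cast
      ring
    have p8 : ∑ F ∈ G, (F.card : ℤ) * tt F * ((P.card : ℤ) - 1 + tt F) =
        6 * ((P.card : ℤ) + 1) * (a2 + b2) + 12 * ((P.card : ℤ) + 2) * (a3 + b3) +
          20 * ((P.card : ℤ) + 3) * (a4 + b4) := by
      rw [hsplit]
      have e1 := hc A hAG (fun k => (k : ℤ) * ((k : ℤ) - 1) * ((P.card : ℤ) - 1 + ((k : ℤ) - 1)))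
      have e2 := hc B hBG (fun k => (k : ℤ) * ((k : ℤ) - 1) * ((P.card : ℤ) - 1 + ((k : ℤ) - 1)))
      unfold tt
      rw [e1, e2]
      push_cast
      ring
    rw [hdga] at hcase
    have hnum := numeric a2 a3 a4 b2 b3 b4 (by positivity) (by positivity) (by positivity)
      (by positivity) (by positivity) (by positivity) (P.card : ℤ) Δ Ω p7 p1 p2 (by linarith) hΔle
    rw [p8]
    rw [p3, p4, p5, p6] at htot
    linarith

end Pool.Agent.Y436.Plane
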