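import Mathlib
import Pool.Agent.Y436.Plane

set_option autoImplicit false

/-!
# The geometry of tight sets of a 3-graph without large tight sets
-/

namespace Pool.Agent.Y436.Tight

open Finset Pool.Agent.Y436.Plane

variable {V : Type*} [DecidableEq V]

/-- number of edges inside `A` -/
def E (H : Finset (Finset V)) (A : Finset V) : ℕ := (H.filter (fun e => e ⊆ A)).card

/-- the standing assumptions -/
structure Ctx (H : Finset (Finset V)) (X : Finset V) (K : ℕ) : Prop where
  three : ∀ e ∈ H, e.card = 3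
  sub : ∀ e ∈ H, e ⊆ X
  hK : 8 ≤ K
  win : ∀ A ⊆ X, K ≤ A.card → A.card ≤ 2 * K - 6 → E H A + 3 < A.card
  deg : ∀ a ∈ X, X.card + 6 * K ^ 3 < 6 * (H.filter (fun e => a ∈ e)).card

variable {H : Finset (Finset V)} {X : Finset V} {K : ℕ}

lemma E_mono {A B : Finset V} (h : A ⊆ B) : E H A ≤ E H B := by
  unfold E
  exact card_le_card (monotone_filter_right H fun e _ he => he.trans h)

lemma E_super (A B : Finset V) : E H A + E H B ≤ E H (A ∪ B) + E H (A ∩ B) := by
  unfold E
  rw [← card_union_add_card_inter]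
  refine Nat.add_le_add (card_le_card ?_) (card_le_card ?_)
  · intro e he
    rw [mem_union, mem_filter, mem_filter] at he
    rw [mem_filter]
    rcases he with he | he
    · exact ⟨he.1, he.2.trans subset_union_left⟩
    · exact ⟨he.1, he.2.trans subset_union_right⟩
  · intro e he
    rw [mem_inter, mem_filter, mem_filter] at he
    rw [mem_filter]
    exact ⟨he.1.1, subset_inter he.1.2 he.2.2⟩

lemma E_add_edge {A g : Finset V} (hg : g ∈ H) (hgA : ¬ g ⊆ A) : E H A + 1 ≤ E H (A ∪ g) := by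
  unfold E
  have h1 : g ∉ H.filter (fun e => e ⊆ A) := fun h => hgA (mem_filter.1 h).2
  rw [← card_insert_of_notMem h1]
  refine card_le_card ?_
  intro e he
  rw [mem_insert, mem_filter] at he
  rw [mem_filter]
  rcases he with rfl | he
  · exact ⟨hg, subset_union_right⟩
  · exact ⟨he.1, he.2.trans subset_union_left⟩

lemma card_union_edge {A g : Finset V} : (A ∪ g).card + (g ∩ A).card = A.card + g.card := by
  rw [inter_comm]; exact card_union_add_card_inter A g

namespace Ctx

variable (c : Ctx H X K)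

include c

lemma E_le (A : Finset V) : E H A ≤ A.card.choose 3 := by
  unfold E
  rw [← card_powersetCard]
  refine card_le_card ?_
  intro e he
  rw [mem_filter] at he
  exact mem_powersetCard.2 ⟨he.2, c.three e he.1⟩

lemma E_le_cube {A : Finset V} (hA : A.card < K) : E H A ≤ K ^ 3 := by
  refine (c.E_le A).trans ((Nat.choose_le_pow A.card 3).trans ?_)
  exact Nat.pow_le_pow_left hA.le 3

lemma small_of {A : Finset V} (hX : A ⊆ X) (h1 : A.card ≤ E H A + 3) (h2 : A.card ≤ 2 * K - 6) :
    A.card < K := by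
  by_contra hcon
  push Not at hcon
  have := c.win A hX hcon h2
  omega

end Ctx

/-- small tight sets -/
def Ti (H : Finset (Finset V)) (X : Finset V) (K : ℕ) (A : Finset V) : Prop :=
  A ⊆ X ∧ A.card < K ∧ A.card ≤ E H A + 3

/-- planes: maximal small tight sets -/
def Pl (H : Finset (Finset V)) (X : Finset V) (K : ℕ) (A : Finset V) : Prop :=
  Ti H X K A ∧ ∀ B, Ti H X K B → A ⊆ B → B = A

/-- flats of rank two -/
def Base (H : Finset (Finset V)) (X : Finset V) (K : ℕ) (F : Finset V) : Prop :=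
  F ⊆ X ∧ F.card < K ∧ 3 ≤ F.card ∧ F.card ≤ E H F + 2 ∧
    ∀ A, F ⊂ A → A ⊆ X → A.card < K → E H A + 3 ≤ A.card

namespace Ctx

variable (c : Ctx H X K)

include c

lemma exists_plane {A : Finset V} (hA : Ti H X K A) : ∃ π, A ⊆ π ∧ Pl H X K π := by
  classical
  obtain ⟨π, hπ, hmax⟩ := exists_max_image (X.powerset.filter fun B => Ti H X K B ∧ A ⊆ B) card
    ⟨A, mem_filter.2 ⟨mem_powerset.2 hA.1, hA, Subset.refl _⟩⟩
  rw [mem_filter, mem_powerset] at hπ
  refine ⟨π, hπ.2.2, hπ.2.1, fun B hB hπB => ?_⟩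
  have h1 := hmax B (mem_filter.2 ⟨mem_powerset.2 hB.1, hB, hπ.2.2.trans hπB⟩)
  exact (eq_of_subset_of_card_le hπB h1).symm

lemma ti_union {A B : Finset V} (hA : Ti H X K A) (hB : Ti H X K B) (h4 : 4 ≤ (A ∩ B).card)
    (h3 : E H (A ∩ B) + 3 ≤ (A ∩ B).card) : Ti H X K (A ∪ B) := by
  have h1 := card_union_add_card_inter A B
  have h2 := E_super (H := H) A B
  obtain ⟨a1, a2, a3⟩ := hA
  obtain ⟨b1, b2, b3⟩ := hB
  have hX : A ∪ B ⊆ X := union_subset a1 b1
  have hK := c.hK
  have h5 : (A ∪ B).card ≤ E H (A ∪ B) + 3 := by omega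
  exact ⟨hX, c.small_of hX h5 (by omega), h5⟩

lemma plane_unique {F π₁ π₂ : Finset V} {x : V} (hF : Base H X K F) (hx : x ∉ F)
    (h1 : Pl H X K π₁) (h2 : Pl H X K π₂) (s1 : insert x F ⊆ π₁) (s2 : insert x F ⊆ π₂) :
    π₁ = π₂ := by
  have hsub : insert x F ⊆ π₁ ∩ π₂ := subset_inter s1 s2
  have hss : F ⊂ π₁ ∩ π₂ := (ssubset_insert hx).trans_subset hsub
  have hc := card_le_card hsub
  rw [card_insert_of_notMem hx] at hc
  have h3 := hF.2.2.1
  have hX : π₁ ∩ π₂ ⊆ X := inter_subset_left.trans h1.1.1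
  have hsm : (π₁ ∩ π₂).card < K := lt_of_le_of_lt (card_le_card inter_subset_left) h1.1.2.1
  have h4 := hF.2.2.2.2 _ hss hX hsm
  have hu := c.ti_union h1.1 h2.1 (by omega) h4
  rw [← h1.2 _ hu subset_union_left, h2.2 _ hu subset_union_right]

lemma plane_edge {π g : Finset V} (hπ : Pl H X K π) (hg : g ∈ H) (h2 : 2 ≤ (g ∩ π).card) :
    g ⊆ π := by
  by_contra hcon
  have h1 := E_add_edge hg hcon
  have h3 := card_union_edge (A := π) (g := g)
  rw [c.three g hg] at h3
  obtain ⟨⟨a1, a2, a3⟩, hmax⟩ := hπ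
  have hX : π ∪ g ⊆ X := union_subset a1 (c.sub g hg)
  have hK := c.hK
  have h5 : (π ∪ g).card ≤ E H (π ∪ g) + 3 := by omega
  have hT : Ti H X K (π ∪ g) := ⟨hX, c.small_of hX h5 (by omega), h5⟩
  have := hmax _ hT subset_union_left
  exact hcon (this ▸ subset_union_right)

lemma flat_edge {F g : Finset V} (hF : Base H X K F) (hg : g ∈ H) (h2 : 2 ≤ (g ∩ F).card) :
    g ⊆ F := by
  by_contra hcon
  have h1 := E_add_edge hg hcon
  have h3 := card_union_edge (A := F) (g := g)
  rw [c.three g hg] at h3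
  obtain ⟨a1, a2, a3, a4, hmax⟩ := hF
  have hX : F ∪ g ⊆ X := union_subset a1 (c.sub g hg)
  have hK := c.hK
  have h5 : (F ∪ g).card ≤ E H (F ∪ g) + 3 := by omega
  have hsm := c.small_of hX h5 (by omega)
  have hss : F ⊂ F ∪ g := by
    rw [ssubset_iff_of_subset subset_union_left]
    rw [not_subset] at hcon
    obtain ⟨z, hz, hzF⟩ := hcon
    exact ⟨z, mem_union_right _ hz, hzF⟩
  have := hmax _ hss hX hsm
  omega

lemma base_insert {F : Finset V} {y : V} (hF : Base H X K F) (hy : y ∈ X) (hyF : y ∉ F) :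
    Ti H X K (insert y F) := by
  obtain ⟨a1, a2, a3, a4, hmax⟩ := hF
  have hX : insert y F ⊆ X := insert_subset hy a1
  have hE : E H F ≤ E H (insert y F) := E_mono (subset_insert _ _)
  have hc : (insert y F).card = F.card + 1 := card_insert_of_notMem hyF
  have hK := c.hK
  have h5 : (insert y F).card ≤ E H (insert y F) + 3 := by omega
  exact ⟨hX, c.small_of hX h5 (by omega), h5⟩

/-- the planes through a flat partition the other points -/
lemma planes_through {F : Finset V} (hF : Base H X K F) (PP : Finset (Finset V))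
    (hPP : ∀ π ∈ PP, Pl H X K π ∧ F ⊆ π) :
    ∑ π ∈ PP, (π \ F).card ≤ (X \ F).card := by
  rw [← card_biUnion]
  · refine card_le_card ?_
    intro x hx
    rw [mem_biUnion] at hx
    obtain ⟨π, hπ, hx⟩ := hx
    rw [mem_sdiff] at hx ⊢
    exact ⟨(hPP π hπ).1.1.1 hx.1, hx.2⟩
  · intro π₁ h1 π₂ h2 hne
    rw [Function.onFun, disjoint_left]
    intro x hx1 hx2
    rw [mem_sdiff] at hx1 hx2
    exact hne (c.plane_unique hF hx1.2 (hPP π₁ h1).1 (hPP π₂ h2).1
      (insert_subset hx1.1 (hPP π₁ h1).2) (insert_subset hx2.1 (hPP π₂ h2).2))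

/-- edges meeting a flat without lying in it -/
lemma meeting_edges {F : Finset V} (hF : Base H X K F) :
    (H.filter (fun g => (g ∩ F).card = 1)).card ≤ X.card := by
  classical
  set PP := X.powerset.filter (fun π => Pl H X K π ∧ F ⊂ π) with hPP
  have hP : ∀ π ∈ PP, Pl H X K π ∧ F ⊂ π := fun π hπ => (mem_filter.1 hπ).2
  have h1 := c.planes_through hF PP (fun π hπ => ⟨(hP π hπ).1, (hP π hπ).2.subset⟩)
  have h2 : H.filter (fun g => (g ∩ F).card = 1) ⊆
      PP.biUnion (fun π => (H.filter (fun e => e ⊆ π)) \ (H.filter (fun e => e ⊆ F))) := by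
    intro g hg
    rw [mem_filter] at hg
    obtain ⟨hgH, hg1⟩ := hg
    have hg3 := c.three g hgH
    obtain ⟨a, ha⟩ := card_eq_one.1 hg1
    have haF : a ∈ g ∩ F := by rw [ha]; exact mem_singleton_self a
    rw [mem_inter] at haF
    have hgF : ¬ g ⊆ F := by
      intro h
      rw [inter_eq_left.2 h] at hg1
      omega
    rw [not_subset] at hgF
    obtain ⟨y, hyg, hyF⟩ := hgF
    obtain ⟨π, hπ1, hπ2⟩ := c.exists_plane (c.base_insert hF (c.sub g hgH hyg) hyF)
    have hgπ : g ⊆ π := by
      refine c.plane_edge hπ2 hgH ?_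
      have : ({a, y} : Finset V) ⊆ g ∩ π := by
        intro z hz
        rw [mem_insert, mem_singleton] at hz
        rcases hz with rfl | rfl
        · exact mem_inter.2 ⟨haF.1, hπ1 (mem_insert_of_mem haF.2)⟩
        · exact mem_inter.2 ⟨hyg, hπ1 (mem_insert_self _ _)⟩
      have hne : a ≠ y := fun h => hyF (h ▸ haF.2)
      calc 2 = ({a, y} : Finset V).card := (card_pair hne).symm
        _ ≤ _ := card_le_card this
    rw [mem_biUnion]
    refine ⟨π, ?_, ?_⟩
    · rw [hPP, mem_filter, mem_powerset]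
      exact ⟨hπ2.1.1, hπ2, (ssubset_insert hyF).trans_subset hπ1⟩
    · rw [mem_sdiff, mem_filter, mem_filter]
      exact ⟨⟨hgH, hgπ⟩, fun h => hyF (h.2 hyg)⟩
  refine (card_le_card h2).trans (card_biUnion_le.trans ?_)
  refine le_trans ?_ (h1.trans (card_le_card sdiff_subset))
  refine sum_le_sum fun π hπ => ?_
  obtain ⟨hπ1, hπ2⟩ := hP π hπ
  have h3 := hF.2.2.2.2 π hπ2 hπ1.1.1 hπ1.1.2.1
  have h4 := hF.2.2.2.1
  have h5 : (H.filter (fun e => e ⊆ F)) ⊆ (H.filter (fun e => e ⊆ π)) :=
    monotone_filter_right H fun e _ he => he.trans hπ2.subset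
  rw [card_sdiff_of_subset h5, card_sdiff_of_subset hπ2.subset]
  change E H π - E H F ≤ _
  omega

lemma base_card {F : Finset V} (hF : Base H X K F) : F.card ≤ 5 := by
  by_contra hcon
  push Not at hcon
  have h1 := c.meeting_edges hF
  -- degree sum
  have h2 : ∑ a ∈ F, (H.filter (fun e => a ∈ e)).card = ∑ g ∈ H, (g ∩ F).card := by
    have h := sum_card_bipartiteAbove_eq_sum_card_bipartiteBelow (s := F) (t := H)
      (fun (a : V) (e : Finset V) => a ∈ e)
    unfold bipartiteAbove bipartiteBelow at h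
    rw [h]
    refine sum_congr rfl fun g _ => ?_
    congr 1
    ext x
    rw [mem_filter, mem_inter, and_comm]
  have h3 : ∑ g ∈ H, (g ∩ F).card ≤
      3 * E H F + (H.filter (fun g => (g ∩ F).card = 1)).card := by
    have h4 : ∀ g ∈ H, (g ∩ F).card ≤ (if g ⊆ F then 3 else 0) + (if (g ∩ F).card = 1 then 1 else 0) := by
      intro g hg
      have hg3 := c.three g hg
      by_cases hs : g ⊆ F
      · rw [if_pos hs]
        have := card_le_card (inter_subset_left (s₁ := g) (s₂ := F))
        omega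
      · rw [if_neg hs]
        have : ¬ 2 ≤ (g ∩ F).card := fun h => hs (c.flat_edge hF hg h)
        split_ifs <;> omega
    refine (sum_le_sum h4).trans ?_
    rw [sum_add_distrib, ← sum_filter, ← sum_filter, sum_const, sum_const]
    unfold E
    simp only [smul_eq_mul]
    omega
  have h5 : ∀ a ∈ F, X.card + 6 * K ^ 3 < 6 * (H.filter (fun e => a ∈ e)).card :=
    fun a ha => c.deg a (hF.1 ha)
  have h6 : F.card * (X.card + 6 * K ^ 3) ≤ 6 * ∑ a ∈ F, (H.filter (fun e => a ∈ e)).card := by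
    rw [mul_sum, ← smul_eq_mul, ← sum_const]
    exact sum_le_sum fun a ha => (h5 a ha).le
  have h7 : 6 * (X.card + 6 * K ^ 3) ≤ F.card * (X.card + 6 * K ^ 3) :=
    Nat.mul_le_mul_right _ hcon
  have h8 := c.E_le_cube hF.2.1
  have h9 : 0 < K ^ 3 := by
    have := c.hK
    positivity
  omega

/-- no small sets with at least six points and `δ ≤ 2` -/
lemma no_six {A : Finset V} (hX : A ⊆ X) (hsm : A.card < K) (h6 : 6 ≤ A.card) :
    E H A + 3 ≤ A.card := by
  classical
  by_contra hcon
  push Not at hcon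
  obtain ⟨F, hF, hmax⟩ := exists_max_image
    (X.powerset.filter fun B => B.card < K ∧ 6 ≤ B.card ∧ B.card ≤ E H B + 2) card
    ⟨A, mem_filter.2 ⟨mem_powerset.2 hX, hsm, h6, by omega⟩⟩
  rw [mem_filter, mem_powerset] at hF
  obtain ⟨hFX, hF1, hF2, hF3⟩ := hF
  have hB : Base H X K F := by
    refine ⟨hFX, hF1, by omega, hF3, fun B hB hBX hBK => ?_⟩
    by_contra hc
    push Not at hc
    have h1 := card_lt_card hB
    have := hmax B (mem_filter.2 ⟨mem_powerset.2 hBX, hBK, by omega, by omega⟩)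
    omega
  have := c.base_card hB
  omega

/-- every small set with at least two points has `δ ≥ 2` -/
lemma two_le {A : Finset V} (hX : A ⊆ X) (hsm : A.card < K) (h2 : 2 ≤ A.card) :
    E H A + 2 ≤ A.card := by
  classical
  by_contra hcon
  push Not at hcon
  obtain ⟨B, hB, hmax⟩ := exists_max_image
    (X.powerset.filter fun B => B.card < K ∧ 2 ≤ B.card ∧ B.card ≤ E H B + 1) card
    ⟨A, mem_filter.2 ⟨mem_powerset.2 hX, hsm, h2, by omega⟩⟩
  rw [mem_filter, mem_powerset] at hB
  obtain ⟨hBX, hB1, hB2, hB3⟩ := hB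
  have h4 : 4 ≤ B.card := by
    have h5 := c.E_le B
    by_contra hc
    push Not at hc
    have : B.card = 2 ∨ B.card = 3 := by omega
    rcases this with h | h
    · rw [h] at h5 hB3
      have : Nat.choose 2 3 = 0 := by decide
      omega
    · rw [h] at h5 hB3
      have : Nat.choose 3 3 = 1 := by decide
      omega
  obtain ⟨a, ha⟩ : B.Nonempty := card_pos.1 (by omega)
  have hdeg := c.deg a (hBX ha)
  have hE := c.E_le_cube hB1
  obtain ⟨g, hg, hag, hgB⟩ : ∃ g ∈ H, a ∈ g ∧ ¬ g ⊆ B := by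
    by_contra hno
    push Not at hno
    have : H.filter (fun e => a ∈ e) ⊆ H.filter (fun e => e ⊆ B) := by
      intro e he
      rw [mem_filter] at he ⊢
      exact ⟨he.1, hno e he.1 he.2⟩
    have := card_le_card this
    unfold E at hE
    omega
  have h1 := E_add_edge hg hgB
  have h3 := card_union_edge (A := B) (g := g)
  rw [c.three g hg] at h3
  have hK := c.hK
  have hUX : B ∪ g ⊆ X := union_subset hBX (c.sub g hg)
  have hi1 : 1 ≤ (g ∩ B).card := card_pos.2 ⟨a, mem_inter.2 ⟨hag, ha⟩⟩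
  have hi2 : (g ∩ B).card ≤ 2 := by
    by_contra hc
    push Not at hc
    have h5 : (g ∩ B).card ≤ g.card := card_le_card inter_subset_left
    rw [c.three g hg] at h5
    have h6 : g ∩ B = g := eq_of_subset_of_card_le inter_subset_left (by rw [c.three g hg]; omega)
    exact hgB (inter_eq_left.1 h6)
  have h5 : (B ∪ g).card ≤ E H (B ∪ g) + 3 := by omega
  have hsm' := c.small_of hUX h5 (by omega)
  have hcases : (g ∩ B).card = 1 ∨ (g ∩ B).card = 2 := by omega
  rcases hcases with h | h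
  · have := c.no_six hUX hsm' (by omega)
    omega
  · have := hmax (B ∪ g) (mem_filter.2 ⟨mem_powerset.2 hUX, hsm', by omega, by omega⟩)
    omega

lemma base_E {F : Finset V} (hF : Base H X K F) : E H F + 2 = F.card := by
  have h1 := c.two_le hF.1 hF.2.1 (by have := hF.2.2.1; omega)
  have h2 := hF.2.2.2.1
  omega

lemma exists_flat {g : Finset V} (hg : g ∈ H) : ∃ F, Base H X K F ∧ g ⊆ F := by
  classical
  have hK := c.hK
  have hg3 := c.three g hg
  have hgE : 1 ≤ E H g := by
    unfold E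
    exact card_pos.2 ⟨g, mem_filter.2 ⟨hg, Subset.refl _⟩⟩
  obtain ⟨F, hF, hmax⟩ := exists_max_image
    (X.powerset.filter fun B => B.card < K ∧ g ⊆ B ∧ B.card ≤ E H B + 2) card
    ⟨g, mem_filter.2 ⟨mem_powerset.2 (c.sub g hg), by omega, Subset.refl _, by omega⟩⟩
  rw [mem_filter, mem_powerset] at hF
  obtain ⟨hFX, hF1, hF2, hF3⟩ := hF
  have h3 := card_le_card hF2
  refine ⟨F, ⟨hFX, hF1, by omega, hF3, fun B hB hBX hBK => ?_⟩, hF2⟩
  by_contra hc
  push Not at hc
  have h1 := card_lt_card hB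
  have := hmax B (mem_filter.2 ⟨mem_powerset.2 hBX, hBK, hF2.trans hB.subset, by omega⟩)
  omega

lemma flat_inter {F F' : Finset V} (hF : Base H X K F) (hF' : Base H X K F') (hne : F ≠ F') :
    (F ∩ F').card ≤ 1 := by
  by_contra hcon
  push Not at hcon
  have hX : F ∪ F' ⊆ X := union_subset hF.1 hF'.1
  have h1 := card_union_add_card_inter F F'
  have h2 := E_super (H := H) F F'
  have h3 := c.two_le (inter_subset_left.trans hF.1)
    (lt_of_le_of_lt (card_le_card inter_subset_left) hF.2.1) hcon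
  have h4 := c.base_E hF
  have h5 := c.base_E hF'
  have h6 := c.base_card hF
  have h7 := c.base_card hF'
  have hK := c.hK
  have h8 : (F ∪ F').card ≤ E H (F ∪ F') + 3 := by omega
  have hsm := c.small_of hX h8 (by omega)
  have key : ∀ G, Base H X K G → G ⊆ F ∪ F' → F ∪ F' = G := by
    intro G hG hGs
    by_contra hc
    have hss : G ⊂ F ∪ F' := lt_of_le_of_ne hGs (Ne.symm hc)
    have := hG.2.2.2.2 _ hss hX hsm
    omega
  exact hne ((key F hF subset_union_left).symm.trans (key F' hF' subset_union_right))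

lemma flat_plane {F π : Finset V} (hF : Base H X K F) (hπ : Pl H X K π)
    (h2 : 2 ≤ (F ∩ π).card) : F ⊆ π := by
  have hX : F ∪ π ⊆ X := union_subset hF.1 hπ.1.1
  have h1 := card_union_add_card_inter F π
  have h3 := E_super (H := H) F π
  have h4 := c.two_le (inter_subset_left.trans hF.1)
    (lt_of_le_of_lt (card_le_card inter_subset_left) hF.2.1) h2
  have h5 := c.base_E hF
  have h6 := c.base_card hF
  have hK := c.hK
  have h7 := hπ.1.2.1
  have h8 := hπ.1.2.2
  have h9 : (F ∪ π).card ≤ E H (F ∪ π) + 3 := by omega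
  have hT : Ti H X K (F ∪ π) := ⟨hX, c.small_of hX h9 (by omega), h9⟩
  have := hπ.2 _ hT subset_union_right
  exact this ▸ subset_union_left

end Ctx

end Pool.Agent.Y436.Tight
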