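import Mathlib
import Pool.Agent.Y436.Tight

set_option autoImplicit false

/-!
# The global count
-/

namespace Pool.Agent.Y436.Tight

open Finset Pool.Agent.Y436.Plane

variable {V : Type*} [DecidableEq V]

/-- the weighted number of ordered pairs of different meeting flats -/
def pairSum (G : Finset (Finset V)) : ℤ :=
  ∑ p ∈ G ×ˢ G, if p.1 ≠ p.2 then tt p.1 * tt p.2 * ((p.1 ∩ p.2).card : ℤ) else 0

lemma sq_eq_pairSum (P : Finset V) (G : Finset (Finset V)) (hsub : ∀ F ∈ G, F ⊆ P) :
    ∑ x ∈ P, (dg G x) ^ 2 = pairSum G + ∑ F ∈ G, (F.card : ℤ) * tt F ^ 2 := by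
  rw [sum_dg_sq P G hsub]
  unfold pairSum
  rw [sum_product, ← sum_add_distrib]
  refine sum_congr rfl fun F hF => ?_
  rw [← add_sum_erase G _ hF, ← add_sum_erase G (fun F' => if F ≠ F' then _ else _) hF, inter_self]
  simp only [ne_eq, not_true_eq_false, if_false, zero_add]
  have : ∑ x ∈ G.erase F, tt F * tt x * ((F ∩ x).card : ℤ) =
      ∑ x ∈ G.erase F, if ¬ F = x then tt F * tt x * ((F ∩ x).card : ℤ) else 0 := by
    refine sum_congr rfl fun x hx => ?_
    rw [if_pos (Ne.symm (mem_erase.1 hx).1)]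
  rw [this]
  ring

variable {H : Finset (Finset V)} {X : Finset V} {K : ℕ}

open Classical in
/-- all flats -/
noncomputable def flats (H : Finset (Finset V)) (X : Finset V) (K : ℕ) : Finset (Finset V) :=
  X.powerset.filter (Base H X K)

open Classical in
/-- all planes -/
noncomputable def planes (H : Finset (Finset V)) (X : Finset V) (K : ℕ) : Finset (Finset V) :=
  X.powerset.filter (Pl H X K)

lemma mem_flats {F : Finset V} : F ∈ flats H X K ↔ Base H X K F := by
  classical
  unfold flats
  rw [mem_filter, mem_powerset]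
  exact ⟨fun h => h.2, fun h => ⟨h.1, h⟩⟩

lemma mem_planes {F : Finset V} : F ∈ planes H X K ↔ Pl H X K F := by
  classical
  unfold planes
  rw [mem_filter, mem_powerset]
  exact ⟨fun h => h.2, fun h => ⟨h.1.1, h⟩⟩

/-- the flats inside a set -/
noncomputable def fl (H : Finset (Finset V)) (X : Finset V) (K : ℕ) (π : Finset V) :
    Finset (Finset V) := (flats H X K).filter (fun F => F ⊆ π)

namespace Ctx

variable (c : Ctx H X K)

include c

lemma tt_pos {F : Finset V} (hF : F ∈ flats H X K) : 2 ≤ tt F := by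
  have := (mem_flats.1 hF).2.2.1
  unfold tt
  have : (3 : ℤ) ≤ F.card := by exact_mod_cast this
  linarith

lemma E_plane {π : Finset V} (hπ : Pl H X K π) :
    E H π = ∑ F ∈ fl H X K π, E H F := by
  unfold E
  rw [← card_biUnion]
  · congr 1
    ext g
    simp only [mem_filter, mem_biUnion, fl, mem_flats]
    constructor
    · rintro ⟨hg, hgπ⟩
      obtain ⟨F, hF, hgF⟩ := c.exists_flat hg
      refine ⟨F, ⟨hF, c.flat_plane hF hπ ?_⟩, hg, hgF⟩
      have : g ⊆ F ∩ π := subset_inter hgF hgπ
      have h1 := card_le_card this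
      rw [c.three g hg] at h1
      omega
    · rintro ⟨F, ⟨-, hFπ⟩, hg, hgF⟩
      exact ⟨hg, hgF.trans hFπ⟩
  · intro F hF F' hF' hne
    rw [Function.onFun, disjoint_left]
    intro g hg hg'
    rw [mem_filter] at hg hg'
    have h1 : g ⊆ F ∩ F' := subset_inter hg.2 hg'.2
    have h2 := card_le_card h1
    rw [c.three g hg.1] at h2
    have hb : Base H X K F := mem_flats.1 (mem_filter.1 hF).1
    have hb' : Base H X K F' := mem_flats.1 (mem_filter.1 hF').1
    have := c.flat_inter hb hb' hne
    omega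

/-- the inequality for one plane -/
lemma plane_count {π : Finset V} (hπ : Pl H X K π) :
    2 * pairSum (fl H X K π) ≤
      ∑ F ∈ fl H X K π, (F.card : ℤ) * tt F * ((π.card : ℤ) - F.card) := by
  have hmem : ∀ F ∈ fl H X K π, Base H X K F ∧ F ⊆ π := by
    intro F hF
    unfold fl at hF
    rw [mem_filter] at hF
    exact ⟨mem_flats.1 hF.1, hF.2⟩
  have hrhs : 0 ≤ ∑ F ∈ fl H X K π, (F.card : ℤ) * tt F * ((π.card : ℤ) - F.card) := by
    refine sum_nonneg fun F hF => ?_
    obtain ⟨h1, h2⟩ := hmem F hF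
    have h3 : (F.card : ℤ) ≤ π.card := by exact_mod_cast card_le_card h2
    have h4 := c.tt_pos (mem_flats.2 h1)
    exact mul_nonneg (mul_nonneg (Nat.cast_nonneg _) (by linarith)) (by linarith)
  by_cases hcard : (fl H X K π).card ≤ 1
  · have : pairSum (fl H X K π) = 0 := by
      unfold pairSum
      refine sum_eq_zero fun p hp => ?_
      rw [mem_product] at hp
      have : p.1 = p.2 := card_le_one.1 hcard _ hp.1 _ hp.2
      rw [if_neg (not_not.2 this)]
    rw [this, mul_zero]
    exact hrhs
  · push Not at hcard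
    obtain ⟨F₁, hF₁, F₂, hF₂, hne⟩ := one_lt_card.1 hcard
    -- every flat inside is proper
    have hss : ∀ F ∈ fl H X K π, F ⊂ π := by
      intro F hF
      refine lt_of_le_of_ne (hmem F hF).2 ?_
      rintro rfl
      have : ∃ G ∈ fl H X K F, G ≠ F := by
        by_cases h : F₁ = F
        · exact ⟨F₂, hF₂, fun h' => hne (h.trans h'.symm)⟩
        · exact ⟨F₁, hF₁, h⟩
      obtain ⟨G, hG, hGF⟩ := this
      have h1 := c.flat_inter (hmem G hG).1 (hmem F hF).1 hGF
      rw [inter_eq_left.2 (hmem G hG).2] at h1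
      have h2 := (hmem G hG).1.2.2.1
      omega
    have hE3 : E H π + 3 = π.card := by
      have h1 := (hmem F₁ hF₁).1.2.2.2.2 π (hss F₁ hF₁) hπ.1.1 hπ.1.2.1
      have h2 := hπ.1.2.2
      omega
    have hcov : ∀ x ∈ π, ∃ F ∈ fl H X K π, x ∈ F := by
      intro x hx
      by_contra hno
      push Not at hno
      -- no edge inside π contains x
      have h1 : E H (π.erase x) = E H π := by
        unfold E
        congr 1
        ext g
        rw [mem_filter, mem_filter]
        constructor
        · rintro ⟨hg, hgs⟩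
          exact ⟨hg, hgs.trans (erase_subset _ _)⟩
        · rintro ⟨hg, hgs⟩
          refine ⟨hg, fun z hz => mem_erase.2 ⟨?_, hgs hz⟩⟩
          rintro rfl
          obtain ⟨F, hF, hgF⟩ := c.exists_flat hg
          have h2 : F ⊆ π := by
            refine c.flat_plane hF hπ ?_
            have h3 := card_le_card (subset_inter hgF hgs)
            rw [c.three g hg] at h3
            omega
          exact hno F (by unfold fl; exact mem_filter.2 ⟨mem_flats.2 hF, h2⟩) (hgF hz)
      have hc := card_erase_of_mem hx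
      have hpos : 0 < π.card := card_pos.2 ⟨x, hx⟩
      have key : ∀ F ∈ fl H X K π, F = π.erase x := by
        intro F hF
        have hs : F ⊆ π.erase x := fun z hz =>
          mem_erase.2 ⟨fun h => hno F hF (h ▸ hz), (hmem F hF).2 hz⟩
        by_contra hne'
        have hlt : F ⊂ π.erase x := lt_of_le_of_ne hs hne'
        have h2 := (hmem F hF).1.2.2.2.2 _ hlt ((erase_subset _ _).trans hπ.1.1)
          (lt_of_le_of_lt (card_le_card (erase_subset _ _)) hπ.1.2.1)
        omega
      exact hne ((key F₁ hF₁).trans (key F₂ hF₂).symm)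
    have hsum : ∑ F ∈ fl H X K π, ((F.card : ℤ) - 2) + 3 = π.card := by
      have h1 := c.E_plane hπ
      have h2 : ∀ F ∈ fl H X K π, ((F.card : ℤ) - 2) = (E H F : ℤ) := by
        intro F hF
        have := c.base_E (hmem F hF).1
        have h3 : (E H F : ℤ) + 2 = F.card := by exact_mod_cast this
        linarith
      rw [sum_congr rfl h2, ← Nat.cast_sum, ← h1]
      exact_mod_cast hE3
    have hmain := plane_ineq π (fl H X K π) (fun F hF => (hmem F hF).2)
      (fun F hF => (hmem F hF).1.2.2.1) (fun F hF => c.base_card (hmem F hF).1)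
      (fun F hF F' hF' hne' => c.flat_inter (hmem F hF).1 (hmem F' hF').1 hne') hsum hcov
    rw [sq_eq_pairSum π _ (fun F hF => (hmem F hF).2)] at hmain
    have : ∑ F ∈ fl H X K π, (F.card : ℤ) * tt F * ((π.card : ℤ) - F.card) =
        ∑ F ∈ fl H X K π, (F.card : ℤ) * tt F * ((π.card : ℤ) - 1 + tt F) -
        2 * ∑ F ∈ fl H X K π, (F.card : ℤ) * tt F ^ 2 := by
      rw [mul_sum, ← sum_sub_distrib]
      refine sum_congr rfl fun F _ => ?_
      unfold tt
      ring
    linarith

lemma pairSum_le :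
    pairSum (flats H X K) ≤ ∑ π ∈ planes H X K, pairSum (fl H X K π) := by
  have h1 : ∀ π ∈ planes H X K, pairSum (fl H X K π) =
      ∑ p ∈ flats H X K ×ˢ flats H X K, if (p.1 ⊆ π ∧ p.2 ⊆ π) then
        (if p.1 ≠ p.2 then tt p.1 * tt p.2 * ((p.1 ∩ p.2).card : ℤ) else 0) else 0 := by
    intro π _
    have h0 : fl H X K π ×ˢ fl H X K π =
        (flats H X K ×ˢ flats H X K).filter (fun p => p.1 ⊆ π ∧ p.2 ⊆ π) := by
      ext p
      simp only [mem_product, mem_filter, fl]
      tauto
    unfold pairSum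
    rw [h0, sum_filter]
  rw [sum_congr rfl h1, sum_comm]
  unfold pairSum
  refine sum_le_sum fun p hp => ?_
  rw [mem_product] at hp
  have hnn : ∀ π, 0 ≤ (if (p.1 ⊆ π ∧ p.2 ⊆ π) then
        (if p.1 ≠ p.2 then tt p.1 * tt p.2 * ((p.1 ∩ p.2).card : ℤ) else 0) else 0) := by
    intro π
    have e1 := c.tt_pos hp.1
    have e2 := c.tt_pos hp.2
    have : 0 ≤ tt p.1 * tt p.2 * ((p.1 ∩ p.2).card : ℤ) :=
      mul_nonneg (mul_nonneg (by linarith) (by linarith)) (Nat.cast_nonneg _)
    split_ifs
    · exact this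
    · exact le_rfl
    · exact le_rfl
  by_cases hne : p.1 ≠ p.2
  · rw [if_pos hne]
    by_cases h0 : (p.1 ∩ p.2).card = 0
    · rw [h0]
      simp only [Nat.cast_zero, mul_zero]
      exact sum_nonneg fun π _ => by
        have := hnn π
        rw [if_pos hne, h0] at this
        simpa using this
    · have hb1 := mem_flats.1 hp.1
      have hb2 := mem_flats.1 hp.2
      have hi := c.flat_inter hb1 hb2 hne
      have h1 : (p.1 ∩ p.2).card = 1 := by omega
      obtain ⟨y, hy2, hy1⟩ : ∃ y ∈ p.2, y ∉ p.1 := by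
        by_contra hno
        push Not at hno
        have : p.2 ⊆ p.1 := hno
        rw [inter_eq_right.2 this] at h1
        have := hb2.2.2.1
        omega
      obtain ⟨π, hs, hπ⟩ := c.exists_plane (c.base_insert hb1 (hb2.1 hy2) hy1)
      have hs1 : p.1 ⊆ π := (subset_insert _ _).trans hs
      have hs2 : p.2 ⊆ π := by
        refine c.flat_plane hb2 hπ ?_
        obtain ⟨a, ha⟩ := card_eq_one.1 h1
        have ha' : a ∈ p.1 ∩ p.2 := by rw [ha]; exact mem_singleton_self a
        rw [mem_inter] at ha'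
        have : ({a, y} : Finset V) ⊆ p.2 ∩ π := by
          intro z hz
          rw [mem_insert, mem_singleton] at hz
          rcases hz with rfl | rfl
          · exact mem_inter.2 ⟨ha'.2, hs1 ha'.1⟩
          · exact mem_inter.2 ⟨hy2, hs (mem_insert_self _ _)⟩
        have hne' : a ≠ y := fun h => hy1 (h ▸ ha'.1)
        calc 2 = ({a, y} : Finset V).card := (card_pair hne').symm
          _ ≤ _ := card_le_card this
      have := single_le_sum (f := fun π => (if (p.1 ⊆ π ∧ p.2 ⊆ π) then
        (if p.1 ≠ p.2 then tt p.1 * tt p.2 * ((p.1 ∩ p.2).card : ℤ) else 0) else 0))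
        (fun π _ => hnn π) (mem_planes.2 hπ)
      rw [if_pos ⟨hs1, hs2⟩, if_pos hne] at this
      simpa [hne] using this
  · rw [if_neg hne]
    exact le_of_eq (by simp)

lemma rhs_le :
    ∑ π ∈ planes H X K, ∑ F ∈ fl H X K π, (F.card : ℤ) * tt F * ((π.card : ℤ) - F.card) ≤
      ∑ F ∈ flats H X K, (F.card : ℤ) * tt F * ((X.card : ℤ)) := by
  have h1 : ∀ π ∈ planes H X K, ∑ F ∈ fl H X K π, (F.card : ℤ) * tt F * ((π.card : ℤ) - F.card) =
      ∑ F ∈ flats H X K, if F ⊆ π then (F.card : ℤ) * tt F * ((π.card : ℤ) - F.card) else 0 := by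
    intro π _
    unfold fl
    rw [sum_filter]
  rw [sum_congr rfl h1, sum_comm]
  refine sum_le_sum fun F hF => ?_
  rw [← sum_filter]
  have hb := mem_flats.1 hF
  have h2 := c.planes_through hb ((planes H X K).filter fun π => F ⊆ π) (fun π hπ => by
    rw [mem_filter] at hπ
    exact ⟨mem_planes.1 hπ.1, hπ.2⟩)
  have h3 : ∑ π ∈ (planes H X K).filter (fun π => F ⊆ π),
      (F.card : ℤ) * tt F * ((π.card : ℤ) - F.card) =
      (F.card : ℤ) * tt F * ((∑ π ∈ (planes H X K).filter (fun π => F ⊆ π), (π \ F).card : ℕ) : ℤ) := by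
    rw [Nat.cast_sum, mul_sum]
    refine sum_congr rfl fun π hπ => ?_
    rw [mem_filter] at hπ
    rw [card_sdiff_of_subset hπ.2, Nat.cast_sub (card_le_card hπ.2)]
  rw [h3]
  have h4 := c.tt_pos hF
  refine mul_le_mul_of_nonneg_left ?_ (mul_nonneg (Nat.cast_nonneg _) (by linarith))
  exact_mod_cast h2.trans (card_le_card sdiff_subset)

lemma card_H : H.card = ∑ F ∈ flats H X K, E H F := by
  unfold E
  rw [← card_biUnion]
  · congr 1
    ext g
    simp only [mem_filter, mem_biUnion, mem_flats]
    constructor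
    · intro hg
      obtain ⟨F, hF, hgF⟩ := c.exists_flat hg
      exact ⟨F, hF, hg, hgF⟩
    · rintro ⟨F, -, hg, -⟩
      exact hg
  · intro F hF F' hF' hne
    rw [Function.onFun, disjoint_left]
    intro g hg hg'
    rw [mem_filter] at hg hg'
    have h1 : g ⊆ F ∩ F' := subset_inter hg.2 hg'.2
    have h2 := card_le_card h1
    rw [c.three g hg.1] at h2
    have := c.flat_inter (mem_flats.1 hF) (mem_flats.1 hF') hne
    omega

/-- **The density bound** under the standing assumptions. -/
theorem density : 12 * H.card ≤ X.card ^ 2 + 8 * X.card := by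
  have hsub : ∀ F ∈ flats H X K, F ⊆ X := fun F hF => (mem_flats.1 hF).1
  have h1 := sq_eq_pairSum X (flats H X K) hsub
  have h2 := c.pairSum_le
  have h3 : 2 * ∑ π ∈ planes H X K, pairSum (fl H X K π) ≤
      ∑ π ∈ planes H X K, ∑ F ∈ fl H X K π, (F.card : ℤ) * tt F * ((π.card : ℤ) - F.card) := by
    rw [mul_sum]
    exact sum_le_sum fun π hπ => c.plane_count (mem_planes.1 hπ)
  have h4 := c.rhs_le
  set Q : ℤ := ∑ F ∈ flats H X K, (F.card : ℤ) * tt F with hQ
  set N : ℤ := (X.card : ℤ) with hN
  have hN0 : 0 ≤ N := Nat.cast_nonneg _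
  have h5 : ∑ F ∈ flats H X K, (F.card : ℤ) * tt F * N = Q * N := by rw [hQ, sum_mul]
  rw [h5] at h4
  have h6 : ∑ F ∈ flats H X K, (F.card : ℤ) * tt F ^ 2 ≤ 4 * Q := by
    rw [hQ, mul_sum]
    refine sum_le_sum fun F hF => ?_
    have e1 := c.tt_pos hF
    have e2 : (F.card : ℤ) ≤ 5 := by exact_mod_cast c.base_card (mem_flats.1 hF)
    have e3 : tt F ≤ 4 := by unfold tt; linarith
    have e4 : (0 : ℤ) ≤ F.card := Nat.cast_nonneg _
    have e5 : 0 ≤ (F.card : ℤ) * tt F := mul_nonneg e4 (by linarith)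
    nlinarith
  -- Cauchy-Schwarz
  have h7 : Q ^ 2 ≤ N * ∑ x ∈ X, (dg (flats H X K) x) ^ 2 := by
    have h := sq_sum_le_card_mul_sum_sq (s := X) (f := fun x => dg (flats H X K) x)
    rw [sum_dg X _ hsub] at h
    have : ∑ F ∈ flats H X K, tt F * (F.card : ℤ) = Q := by
      rw [hQ]
      exact sum_congr rfl fun F _ => mul_comm _ _
    rw [this] at h
    exact h
  have hQ0 : 0 ≤ Q := by
    rw [hQ]
    exact sum_nonneg fun F hF => mul_nonneg (Nat.cast_nonneg _) (by have := c.tt_pos hF; linarith)
  have h8 : 2 * Q ≤ N ^ 2 + 8 * N := by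
    rcases eq_or_lt_of_le hQ0 with h | h
    · rw [← h]; positivity
    · have h9 : 2 * ∑ x ∈ X, (dg (flats H X K) x) ^ 2 ≤ Q * N + 8 * Q := by linarith
      have h10 : 2 * Q ^ 2 ≤ N * (Q * N + 8 * Q) := by nlinarith
      have h11 : Q * (2 * Q) ≤ Q * (N ^ 2 + 8 * N) := by nlinarith
      exact le_of_mul_le_mul_left h11 h
  have h12 : 6 * (H.card : ℤ) ≤ Q := by
    rw [c.card_H, Nat.cast_sum, mul_sum, hQ]
    refine sum_le_sum fun F hF => ?_
    have hb := mem_flats.1 hF
    have e1 : (E H F : ℤ) = (F.card : ℤ) - 2 := by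
      have := c.base_E hb
      have : (E H F : ℤ) + 2 = F.card := by exact_mod_cast this
      linarith
    have e2 := c.base_card hb
    have e3 := hb.2.2.1
    rw [e1]
    unfold tt
    have : F.card = 3 ∨ F.card = 4 ∨ F.card = 5 := by omega
    rcases this with h | h | h <;> rw [h] <;> norm_num
  have h13 : 12 * (H.card : ℤ) ≤ (X.card : ℤ) ^ 2 + 8 * X.card := by
    rw [← hN]; linarith
  exact_mod_cast h13

end Ctx

/-- The density bound without a degree condition. -/
theorem main (H : Finset (Finset V)) (X : Finset V) (K : ℕ) (hK : 8 ≤ K)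
    (three : ∀ e ∈ H, e.card = 3)
    (win : ∀ A ⊆ X, K ≤ A.card → A.card ≤ 2 * K - 6 → E H A + 3 < A.card) :
    12 * E H X ≤ X.card ^ 2 + (12 * K ^ 3 + 8) * X.card := by
  induction hn : X.card generalizing X with
  | zero =>
    have hX : X = ∅ := card_eq_zero.1 hn
    subst hX
    unfold E
    rw [card_eq_zero.2]
    · simp
    · rw [filter_eq_empty_iff]
      intro e he hs
      have := three e he
      rw [subset_empty.1 hs] at this
      simp at this
  | succ n ih =>
    by_cases hdeg : ∀ a ∈ X, X.card + 6 * K ^ 3 <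
        6 * ((H.filter (fun e => e ⊆ X)).filter (fun e => a ∈ e)).card
    · have hE : ∀ A ⊆ X, E (H.filter (fun e => e ⊆ X)) A = E H A := by
        intro A hA
        unfold E
        rw [filter_filter]
        congr 1
        ext e
        rw [mem_filter, mem_filter]
        exact ⟨fun h => ⟨h.1, h.2.2⟩, fun h => ⟨h.1, h.2.trans hA, h.2⟩⟩
      have c : Ctx (H.filter (fun e => e ⊆ X)) X K :=
        { three := fun e he => three e (mem_filter.1 he).1
          sub := fun e he => (mem_filter.1 he).2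
          hK := hK
          win := fun A hA h1 h2 => by rw [hE A hA]; exact win A hA h1 h2
          deg := hdeg }
      have := c.density
      change 12 * (H.filter (fun e => e ⊆ X)).card ≤ _
      rw [hn] at this
      have h0 : 8 * (n + 1) ≤ (12 * K ^ 3 + 8) * (n + 1) :=
        Nat.mul_le_mul_right _ (Nat.le_add_left _ _)
      exact this.trans (Nat.add_le_add_left h0 _)
    · push Not at hdeg
      obtain ⟨a, ha, hda⟩ := hdeg
      have hc : (X.erase a).card = n := by rw [card_erase_of_mem ha, hn]; rfl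
      have h1 := ih (X.erase a) (fun A hA => win A (hA.trans (erase_subset _ _))) hc
      have h2 : E H X = E H (X.erase a) +
          ((H.filter (fun e => e ⊆ X)).filter (fun e => a ∈ e)).card := by
        unfold E
        rw [← card_filter_add_card_filter_not (s := H.filter (fun e => e ⊆ X)) (fun e => a ∈ e),
          add_comm]
        congr 2
        ext e
        simp only [mem_filter]
        constructor
        · rintro ⟨⟨h3, h4⟩, h5⟩
          exact ⟨h3, fun z hz => mem_erase.2 ⟨fun h => h5 (h ▸ hz), h4 hz⟩⟩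
        · rintro ⟨h3, h4⟩
          exact ⟨⟨h3, h4.trans (erase_subset _ _)⟩, fun h => (mem_erase.1 (h4 h)).1 rfl⟩
      rw [h2]
      rw [hn] at hda
      nlinarith

end Pool.Agent.Y436.Tight
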